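import Mathlib

set_option autoImplicit false

namespace Pool.Agent.Work.MP_47966f_an

/-- `MM N k = N 1 * N 2 * ... * N k`. -/
def MM (N : ℕ → ℕ) (k : ℕ) : ℕ := ∏ i ∈ Finset.Icc 1 k, N i

lemma MM_zero (N : ℕ → ℕ) : MM N 0 = 1 := by simp [MM]

lemma MM_succ (N : ℕ → ℕ) (k : ℕ) : MM N (k + 1) = MM N k * N (k + 1) := by
  simp [MM, Finset.prod_Icc_succ_top]

section
variable {N : ℕ → ℕ} (hN : ∀ k, 1 ≤ k → 2 ≤ N k)
include hN

lemma two_pow_le_MM (k : ℕ) : 2 ^ k ≤ MM N k := by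
  induction k with
  | zero => simp [MM_zero]
  | succ k ih =>
    rw [MM_succ, pow_succ]
    exact Nat.mul_le_mul ih (hN _ (by omega))

lemma MM_pos (k : ℕ) : 0 < MM N k := lt_of_lt_of_le (by positivity) (two_pow_le_MM hN k)

omit hN in
lemma MM_dvd {j k : ℕ} (h : j ≤ k) : MM N j ∣ MM N k := by
  induction k, h using Nat.le_induction with
  | base => exact dvd_rfl
  | succ k _ ih => rw [MM_succ]; exact Dvd.dvd.mul_right ih _

end

/-- The index of the first digit of `x` that is nonzero: the least `k` with `MM N k ∤ x`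
(and `0` for `x = 0`). -/
noncomputable def val (N : ℕ → ℕ) (x : ℤ) : ℕ := sInf {k : ℕ | ¬ ((MM N k : ℤ) ∣ x)}

section
variable {N : ℕ → ℕ} (hN : ∀ k, 1 ≤ k → 2 ≤ N k)
include hN

lemma dvd_iff_lt_val {x : ℤ} (hx : x ≠ 0) (k : ℕ) : (MM N k : ℤ) ∣ x ↔ k < val N x := by
  have hne : {k : ℕ | ¬ ((MM N k : ℤ) ∣ x)}.Nonempty := by
    refine ⟨x.natAbs, fun h => ?_⟩
    have h1 : MM N x.natAbs ∣ x.natAbs := by
      have := Int.natAbs_dvd_natAbs.mpr h
      simpa using this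
    have h2 : MM N x.natAbs ≤ x.natAbs := Nat.le_of_dvd (Int.natAbs_pos.mpr hx) h1
    have h3 := two_pow_le_MM hN x.natAbs
    have h4 : x.natAbs < 2 ^ x.natAbs := Nat.lt_two_pow_self
    omega
  constructor
  · intro h
    by_contra hk
    push Not at hk
    have hmem : ¬ ((MM N (val N x) : ℤ) ∣ x) := Nat.sInf_mem hne
    apply hmem
    exact dvd_trans (by exact_mod_cast MM_dvd hk) h
  · intro h
    by_contra hk
    have := Nat.sInf_le (s := {k : ℕ | ¬ ((MM N k : ℤ) ∣ x)}) hk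
    unfold val at h
    omega

lemma val_pos {x : ℤ} (hx : x ≠ 0) : 0 < val N x := by
  rw [← dvd_iff_lt_val hN hx, MM_zero]
  simp

lemma val_eq_of {x : ℤ} {k : ℕ} (hk : 1 ≤ k) (h1 : (MM N (k - 1) : ℤ) ∣ x)
    (h2 : ¬ (MM N k : ℤ) ∣ x) : val N x = k := by
  have hx : x ≠ 0 := by rintro rfl; exact h2 (dvd_zero _)
  rw [dvd_iff_lt_val hN hx] at h1 h2
  omega

omit hN in
lemma val_zero : val N 0 = 0 := by
  simp [val]

omit hN in
lemma val_neg (x : ℤ) : val N (-x) = val N x := by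
  simp [val]

omit hN in
lemma val_sub_comm (x y : ℤ) : val N (x - y) = val N (y - x) := by
  rw [← val_neg, neg_sub]

lemma val_add_of_lt {x y : ℤ} (hx : x ≠ 0) (hy : y ≠ 0) (h : val N x < val N y) :
    val N (x + y) = val N x := by
  have h1 : ∀ k, (MM N k : ℤ) ∣ x + y → k < val N x := by
    intro k hk
    by_contra hlt
    push Not at hlt
    have a1 : (MM N (val N x) : ℤ) ∣ x + y := dvd_trans (by exact_mod_cast MM_dvd hlt) hk
    have a2 : (MM N (val N x) : ℤ) ∣ y := (dvd_iff_lt_val hN hy _).2 h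
    have a3 : (MM N (val N x) : ℤ) ∣ x := (dvd_add_left a2).1 a1
    have := (dvd_iff_lt_val hN hx _).1 a3
    omega
  have hxy : x + y ≠ 0 := by
    intro h0
    have := h1 (val N x) (by rw [h0]; exact dvd_zero _)
    omega
  apply le_antisymm
  · by_contra hlt
    push Not at hlt
    have := h1 _ ((dvd_iff_lt_val hN hxy _).2 hlt)
    omega
  · by_contra hlt
    push Not at hlt
    have a1 : (MM N (val N (x + y)) : ℤ) ∣ x := (dvd_iff_lt_val hN hx _).2 hlt
    have a2 : (MM N (val N (x + y)) : ℤ) ∣ y := (dvd_iff_lt_val hN hy _).2 (hlt.trans h)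
    have := (dvd_iff_lt_val hN hxy _).1 (dvd_add a1 a2)
    omega

lemma min_le_val_add {x y : ℤ} (hx : x ≠ 0) (hy : y ≠ 0) (hxy : x + y ≠ 0) :
    min (val N x) (val N y) ≤ val N (x + y) := by
  by_contra hlt
  push Not at hlt
  rw [lt_min_iff] at hlt
  have a1 : (MM N (val N (x + y)) : ℤ) ∣ x := (dvd_iff_lt_val hN hx _).2 hlt.1
  have a2 : (MM N (val N (x + y)) : ℤ) ∣ y := (dvd_iff_lt_val hN hy _).2 hlt.2
  have := (dvd_iff_lt_val hN hxy _).1 (dvd_add a1 a2)
  omega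

/-- **Covering lemma.** -/
lemma cover {L : Set ℤ} (hL : ∀ a ∈ L, ∀ a' ∈ L, a ≠ a' → ¬ Even (val N (a - a')))
    (hmax : ∀ c, c ∉ L → ∃ a ∈ L, Even (val N (c - a)))
    {F : Finset ℤ} (hF : ∀ x ∈ F, ∀ y ∈ F, x ≠ y → Even (val N (x - y))) (n : ℤ) :
    ∃ b, n - b ∈ L ∧ ∀ x ∈ F, x ≠ b → Even (val N (x - b)) := by
  classical
  by_cases h : ∃ f ∈ F, n - f ∈ L
  · obtain ⟨f, hf, hfL⟩ := h
    exact ⟨f, hfL, fun x hx hxf => hF x hx f hf hxf⟩
  push Not at h
  have hLne : ∃ a, a ∈ L := by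
    by_cases h0 : (0 : ℤ) ∈ L
    · exact ⟨0, h0⟩
    · obtain ⟨a, ha, -⟩ := hmax 0 h0
      exact ⟨a, ha⟩
  -- choice of the best approximations
  have key : ∀ f ∈ F, ∃ a ∈ L, Even (val N (n - f - a)) ∧
      ∀ a' ∈ L, val N (n - f - a') ≤ val N (n - f - a) := by
    intro f hf
    obtain ⟨a, ha, hev⟩ := hmax (n - f) (h f hf)
    refine ⟨a, ha, hev, fun a' ha' => ?_⟩
    by_contra hlt
    push Not at hlt
    have hne1 : n - f - a ≠ 0 := by
      intro h0
      apply h f hf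
      have : n - f = a := by linarith
      rwa [this]
    have hne2 : -(n - f - a') ≠ 0 := by
      intro h0
      apply h f hf
      have : n - f = a' := by linarith
      rwa [this]
    have h1 := val_add_of_lt hN hne1 hne2 (by rwa [val_neg])
    have h2 : n - f - a + -(n - f - a') = a' - a := by ring
    rw [h2] at h1
    have hne3 : a' ≠ a := by
      rintro rfl
      exact lt_irrefl _ hlt
    exact hL a' ha' a ha hne3 (by rw [h1]; exact hev)
  choose! A hAL hAev hAmax using key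
  rcases F.eq_empty_or_nonempty with hFe | hFne
  · obtain ⟨a, ha⟩ := hLne
    refine ⟨n - a, by simpa using ha, fun x hx => ?_⟩
    simp [hFe] at hx
  obtain ⟨f₀, hf₀, hf₀max⟩ := Finset.exists_max_image F (fun f => val N (n - f - A f)) hFne
  refine ⟨n - A f₀, by simpa using hAL f₀ hf₀, fun x hx hxb => ?_⟩
  have hxe : x - (n - A f₀) = -(n - x - A f₀) := by ring
  rw [hxe, val_neg]
  by_cases hxf : x = f₀
  · rw [hxf]; exact hAev f₀ hf₀
  have hev : Even (val N (f₀ - x)) := hF f₀ hf₀ x hx (Ne.symm hxf)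
  have hne1 : n - f₀ - A f₀ ≠ 0 := by
    intro h0
    apply h f₀ hf₀
    have : n - f₀ = A f₀ := by linarith
    rw [this]; exact hAL f₀ hf₀
  have hne2 : f₀ - x ≠ 0 := sub_ne_zero.mpr (Ne.symm hxf)
  have hne3 : (n - f₀ - A f₀) + (f₀ - x) ≠ 0 := by
    intro h0
    apply hxb
    linarith
  have hsum : n - x - A f₀ = (n - f₀ - A f₀) + (f₀ - x) := by ring
  rcases lt_trichotomy (val N (n - f₀ - A f₀)) (val N (f₀ - x)) with h1 | h1 | h1
  · rw [hsum, val_add_of_lt hN hne1 hne2 h1]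
    exact hAev f₀ hf₀
  · have hle : val N (n - x - A f₀) ≤ val N (n - f₀ - A f₀) :=
      (hAmax x hx _ (hAL f₀ hf₀)).trans (hf₀max x hx)
    have hge := min_le_val_add hN hne1 hne2 hne3
    rw [← hsum, h1, min_self] at hge
    have : val N (n - x - A f₀) = val N (n - f₀ - A f₀) := by omega
    rw [this]; exact hAev f₀ hf₀
  · rw [hsum, add_comm, val_add_of_lt hN hne2 hne1 h1]
    exact hev

end

end Pool.Agent.Work.MP_47966f_an
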