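import Pool.Agent.Work.MP_47966f_an.Mass

set_option autoImplicit false

namespace Pool.Agent.Work.MP_47966f_an

open Complex Filter Topology

section
variable {N : ℕ → ℕ} (hN : ∀ k, 1 ≤ k → 2 ≤ N k)
variable (S : ℕ → Prop) [DecidablePred S] (hS : ∀ n, ∃ k, n ≤ k ∧ ¬ S (k + 1))
variable {h : ℝ → ℝ} (hh : ∀ t, Tendsto (fun n => ‖GS N S n t‖ ^ 2) atTop (𝓝 (h t)))
include hN hh

lemma h_le (k : ℕ) (t : ℝ) : h t ≤ ‖GS N S k t‖ ^ 2 := by
  apply le_of_tendsto (hh t)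
  filter_upwards [eventually_ge_atTop k] with n hn
  exact GS_anti hN S k n hn t

omit hN in
lemma h_nonneg (t : ℝ) : 0 ≤ h t :=
  ge_of_tendsto' (hh t) (fun _ => by positivity)

lemma h_ge (k : ℕ) (hk : ¬ S (k + 1)) (t : ℝ) (ht : |t| ≤ MM N k / 2) :
    1 / 2 * ‖GS N S k t‖ ^ 2 ≤ h t := by
  apply ge_of_tendsto (hh t)
  filter_upwards [eventually_ge_atTop k] with n hn
  exact GS_tail hN S k n hn hk t ht

include hS

/-- The zero set of `h`. -/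
lemma h_zero_iff (t : ℝ) : h t = 0 ↔ ∃ n : ℤ, t = n ∧ n ≠ 0 ∧ S (val N n) := by
  constructor
  · intro h0
    obtain ⟨k₀, hk₀⟩ : ∃ k₀ : ℕ, |t| ≤ (2 : ℝ) ^ k₀ / 2 := by
      obtain ⟨m, hm⟩ := pow_unbounded_of_one_lt (2 * |t|) (by norm_num : (1 : ℝ) < 2)
      exact ⟨m, by linarith⟩
    obtain ⟨k, hk, hkS⟩ := hS k₀
    have hMk : (2 : ℝ) ^ k₀ ≤ MM N k := by
      calc (2 : ℝ) ^ k₀ ≤ 2 ^ k := pow_le_pow_right₀ (by norm_num) hk
        _ ≤ MM N k := by exact_mod_cast two_pow_le_MM hN k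
    have h1 := h_ge hN S hh k hkS t (by linarith)
    rw [h0] at h1
    have h2 : ‖GS N S k t‖ ^ 2 = 0 := le_antisymm (by linarith) (by positivity)
    have h3 : GS N S k t = 0 := by
      rw [← norm_eq_zero]; exact pow_eq_zero_iff (two_ne_zero) |>.mp h2
    unfold GS at h3
    obtain ⟨j, hj, hj0⟩ := Finset.prod_eq_zero_iff.mp h3
    obtain ⟨hj1, hjS⟩ := Finset.mem_filter.mp hj
    have hj1' := (Finset.mem_Icc.mp hj1).1
    obtain ⟨n, hn, hd, hnd⟩ := (g_zero_iff hN j hj1' t).1 hj0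
    refine ⟨n, hn, ?_, ?_⟩
    · rintro rfl; exact hnd (dvd_zero _)
    · rw [val_eq_of hN hj1' hd hnd]; exact hjS
  · rintro ⟨n, hn, hn0, hnS⟩
    have hv := val_pos hN hn0
    have hg : g N (val N n) t = 0 := by
      rw [g_zero_iff hN _ hv]
      refine ⟨n, hn, ?_, ?_⟩
      · rw [dvd_iff_lt_val hN hn0]; omega
      · rw [dvd_iff_lt_val hN hn0]; omega
    have h1 : GS N S (val N n) t = 0 := by
      unfold GS
      apply Finset.prod_eq_zero (i := val N n) _ hg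
      rw [Finset.mem_filter, Finset.mem_Icc]
      exact ⟨⟨hv, le_rfl⟩, hnS⟩
    have h2 := h_le hN S hh (val N n) t
    rw [h1] at h2
    simp at h2
    exact le_antisymm h2 (h_nonneg S hh t)

lemma improve {F : Finset ℤ} (hF : Good N S F) (ξ : ℝ) {δ : ℝ} (hδ : 0 < δ) :
    ∃ F' : Finset ℤ, F ⊆ F' ∧ Good N S F' ∧
      1 - ∑ b ∈ F', h (ξ - b) ≤ 1 / 2 * (1 - ∑ b ∈ F, h (ξ - b)) + δ := by
  classical
  -- choose the level
  have hlim : Tendsto (fun n => ∑ b ∈ F, ‖GS N S n (ξ - b)‖ ^ 2) atTop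
      (𝓝 (∑ b ∈ F, h (ξ - b))) := tendsto_finsetSum _ (fun b _ => hh _)
  obtain ⟨n₁, hn₁⟩ := (hlim.eventually (eventually_lt_nhds
    (show ∑ b ∈ F, h (ξ - b) < ∑ b ∈ F, h (ξ - b) + δ by linarith))).exists_forall_of_atTop
  let n₂ := (F ×ˢ F).sup (fun p => val N (p.1 - p.2))
  obtain ⟨k, hk, hkS⟩ := hS (max n₁ n₂)
  have hk1 : n₁ ≤ k := (le_max_left _ _).trans hk
  have hk2 : n₂ ≤ k := (le_max_right _ _).trans hk
  have hM0 : (0 : ℝ) < MM N k := by exact_mod_cast MM_pos hN k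
  obtain ⟨G, hFG, hGI, hG, hmass⟩ := completion hN S k F
    (fun x hx y hy hxy => ⟨hF x hx y hy hxy,
      (Finset.le_sup (f := fun p : ℤ × ℤ => val N (p.1 - p.2))
        (Finset.mem_product.mpr ⟨hx, hy⟩ : (x, y) ∈ F ×ˢ F)).trans hk2⟩)
    {b : ℤ | |ξ - b| ≤ MM N k / 2} (by
      intro r
      refine ⟨r + MM N k * round ((ξ - r) / MM N k), ?_, ?_⟩
      · simp only [Set.mem_ofPred_eq]
        have h1 := abs_sub_round ((ξ - r) / MM N k)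
        have h2 : (ξ - ((r + MM N k * round ((ξ - r) / MM N k) : ℤ) : ℝ))
            = MM N k * ((ξ - r) / MM N k - round ((ξ - r) / MM N k)) := by
          push_cast
          field_simp
          ring
        rw [h2, abs_mul, abs_of_pos hM0]
        calc _ ≤ (MM N k : ℝ) * (1 / 2) := by gcongr
          _ = _ := by ring
      · simp)
  refine ⟨G, hFG, fun x hx y hy hxy => (hG x hx y hy hxy).1, ?_⟩
  have h1 : ∑ b ∈ G, h (ξ - b) = ∑ b ∈ G \ F, h (ξ - b) + ∑ b ∈ F, h (ξ - b) :=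
    (Finset.sum_sdiff hFG).symm
  have h2 : ∑ b ∈ G, ‖GS N S k (ξ - b)‖ ^ 2
      = ∑ b ∈ G \ F, ‖GS N S k (ξ - b)‖ ^ 2 + ∑ b ∈ F, ‖GS N S k (ξ - b)‖ ^ 2 :=
    (Finset.sum_sdiff hFG).symm
  have h3 : 1 / 2 * ∑ b ∈ G \ F, ‖GS N S k (ξ - b)‖ ^ 2 ≤ ∑ b ∈ G \ F, h (ξ - b) := by
    rw [Finset.mul_sum]
    apply Finset.sum_le_sum
    intro b hb
    obtain ⟨hb1, hb2⟩ := Finset.mem_sdiff.mp hb
    exact h_ge hN S hh k hkS _ (hGI b hb1 hb2)
  have h4 := hn₁ k hk1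
  have h5 := hmass ξ
  rw [h2] at h5
  rw [h1]
  linarith

lemma improve_all {F : Finset ℤ} (hF : Good N S F) (ξ : ℝ) {ε : ℝ} (hε : 0 < ε) :
    ∃ F' : Finset ℤ, F ⊆ F' ∧ Good N S F' ∧ 1 - ∑ b ∈ F', h (ξ - b) < ε := by
  have key : ∀ n : ℕ, ∃ F' : Finset ℤ, F ⊆ F' ∧ Good N S F' ∧
      1 - ∑ b ∈ F', h (ξ - b) ≤ (1 / 2) ^ n + ε / 2 := by
    intro n
    induction n with
    | zero =>
      refine ⟨F, subset_rfl, hF, ?_⟩
      have : 0 ≤ ∑ b ∈ F, h (ξ - b) := Finset.sum_nonneg (fun b _ => h_nonneg S hh _)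
      simp only [pow_zero]
      linarith
    | succ n ih =>
      obtain ⟨F', h1, h2, h3⟩ := ih
      obtain ⟨F'', h4, h5, h6⟩ := improve hN S hS hh h2 ξ (show 0 < ε / 4 by linarith)
      refine ⟨F'', h1.trans h4, h5, ?_⟩
      rw [pow_succ]
      linarith
  obtain ⟨n, hn⟩ := exists_pow_lt_of_lt_one (show 0 < ε / 2 by linarith)
    (by norm_num : (1 / 2 : ℝ) < 1)
  obtain ⟨F', h1, h2, h3⟩ := key n
  exact ⟨F', h1, h2, by linarith⟩

end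

/-- The main construction, on the level of integers. -/
theorem exists_complement {N : ℕ → ℕ} (hN : ∀ k, 1 ≤ k → 2 ≤ N k)
    {h : ℝ → ℝ} (hh : ∀ t, Tendsto (fun n => ‖GS N Even n t‖ ^ 2) atTop (𝓝 (h t)))
    {L : Set ℤ} (hL : ∀ a ∈ L, ∀ a' ∈ L, a ≠ a' → ¬ Even (val N (a - a')))
    (hmax : ∀ c, c ∉ L → ∃ a ∈ L, Even (val N (c - a))) (t₀ : ℝ) :
    ∃ B : Set ℤ, (∀ x ∈ B, ∀ y ∈ B, x ≠ y → Even (val N (x - y))) ∧
      (∀ n : ℤ, ∃ b ∈ B, n - b ∈ L) ∧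
      ∀ ξ : ℚ, ∀ ε : ℝ, 0 < ε → ∃ F : Finset ℤ, (∀ b ∈ F, b ∈ B) ∧
        1 - ∑ b ∈ F, h (ξ + t₀ - b) < ε := by
  classical
  have hS : ∀ n, ∃ k, n ≤ k ∧ ¬ Even (k + 1) := by
    intro n
    refine ⟨2 * n, by omega, ?_⟩
    rw [Nat.not_even_iff_odd]
    exact ⟨n, rfl⟩
  have step : ∀ (F : {F : Finset ℤ // Good N Even F}) (τ : ℤ × ℚ × ℕ),
      ∃ F' : {F : Finset ℤ // Good N Even F}, F.1 ⊆ F'.1 ∧ (∃ b ∈ F'.1, τ.1 - b ∈ L) ∧
        1 - ∑ b ∈ F'.1, h ((τ.2.1 : ℝ) + t₀ - b) < 1 / (τ.2.2 + 1 : ℝ) := by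
    intro F τ
    obtain ⟨b, hb1, hb2⟩ := cover hN hL hmax F.2 τ.1
    have hgood : Good N Even (insert b F.1) := by
      intro x hx y hy hxy
      rcases Finset.mem_insert.mp hx with hx | hx
      · rcases Finset.mem_insert.mp hy with hy | hy
        · exact absurd (hx.trans hy.symm) hxy
        · rw [hx, val_sub_comm]
          exact hb2 y hy (fun h => hxy (by rw [hx, h]))
      · rcases Finset.mem_insert.mp hy with hy | hy
        · rw [hy]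
          exact hb2 x hx (fun h => hxy (by rw [hy, h]))
        · exact F.2 x hx y hy hxy
    obtain ⟨F', h1, h2, h3⟩ := improve_all hN Even hS hh hgood ((τ.2.1 : ℝ) + t₀)
      (show (0 : ℝ) < 1 / (τ.2.2 + 1 : ℝ) by positivity)
    exact ⟨⟨F', h2⟩, (Finset.subset_insert _ _).trans h1,
      ⟨b, h1 (Finset.mem_insert_self _ _), hb1⟩, h3⟩
  choose next hnext1 hnext2 hnext3 using step
  obtain ⟨f, hf⟩ := exists_surjective_nat (ℤ × ℚ × ℕ)
  let Fs : ℕ → {F : Finset ℤ // Good N Even F} := fun n =>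
    Nat.rec ⟨∅, fun x hx => by simp at hx⟩ (fun n F => next F (f n)) n
  have hFs : ∀ n, Fs (n + 1) = next (Fs n) (f n) := fun n => rfl
  have hmono : ∀ m n, m ≤ n → (Fs m).1 ⊆ (Fs n).1 := by
    intro m n hmn
    induction n, hmn using Nat.le_induction with
    | base => exact subset_rfl
    | succ n _ ih => exact ih.trans (by rw [hFs]; exact hnext1 _ _)
  refine ⟨⋃ n, ((Fs n).1 : Set ℤ), ?_, ?_, ?_⟩
  · intro x hx y hy hxy
    obtain ⟨m, hm⟩ := Set.mem_iUnion.mp hx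
    obtain ⟨n, hn⟩ := Set.mem_iUnion.mp hy
    exact (Fs (max m n)).2 x (hmono m _ (le_max_left _ _) hm) y
      (hmono n _ (le_max_right _ _) hn) hxy
  · intro n
    obtain ⟨i, hi⟩ := hf (n, 0, 0)
    obtain ⟨b, hb1, hb2⟩ := hnext2 (Fs i) (f i)
    refine ⟨b, Set.mem_iUnion.mpr ⟨i + 1, ?_⟩, ?_⟩
    · rw [hFs]; exact hb1
    · rw [hi] at hb2; exact hb2
  · intro ξ ε hε
    obtain ⟨m, hm⟩ := exists_nat_one_div_lt hε
    obtain ⟨i, hi⟩ := hf (0, ξ, m)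
    refine ⟨(Fs (i + 1)).1, fun b hb => Set.mem_iUnion.mpr ⟨i + 1, hb⟩, ?_⟩
    have h1 := hnext3 (Fs i) (f i)
    rw [hFs]
    rw [hi] at h1 ⊢
    exact h1.trans hm

end Pool.Agent.Work.MP_47966f_an
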