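import Mathlib

set_option autoImplicit false

/-!
Definitions used in the statement about complementary spectra for type II factorisations of
Lebesgue measure.  The sequence `(N_k)_{k ≥ 1}` is a function `N : ℕ → ℕ` of which only the
values `N k` with `k ≥ 1` are used.
-/

namespace Pool.Agent.Work.MP_47966f_an

open MeasureTheory Filter Topology
open scoped ENNReal

/-- The measure `ν_k = (1/N_k) ∑_{j=0}^{N_k-1} δ_{j/(N_1 N_2 ⋯ N_k)}`. -/
noncomputable def nuMeas (N : ℕ → ℕ) (k : ℕ) : Measure ℝ :=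
  (N k : ℝ≥0∞)⁻¹ • ∑ j ∈ Finset.range (N k),
    Measure.dirac ((j : ℝ) / ∏ i ∈ Finset.Icc 1 k, (N i : ℝ))

/-- The partial convolutions `ν_1 ∗ ν_3 ∗ ⋯ ∗ ν_{2n-1}` (for `n = 0` the Dirac mass at `0`). -/
noncomputable def oddConv (N : ℕ → ℕ) : ℕ → Measure ℝ
  | 0 => Measure.dirac 0
  | n + 1 => (oddConv N n).conv (nuMeas N (2 * n + 1))

/-- The partial convolutions `ν_2 ∗ ν_4 ∗ ⋯ ∗ ν_{2n}` (for `n = 0` the Dirac mass at `0`). -/
noncomputable def evenConv (N : ℕ → ℕ) : ℕ → Measure ℝ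
  | 0 => Measure.dirac 0
  | n + 1 => (evenConv N n).conv (nuMeas N (2 * n + 2))

/-- `μ` is the weak limit of the sequence of measures `m`: the integrals of every bounded
continuous function converge. -/
def IsWeakLimit (m : ℕ → Measure ℝ) (μ : Measure ℝ) : Prop :=
  ∀ f : BoundedContinuousFunction ℝ ℝ,
    Tendsto (fun n => ∫ x, f x ∂(m n)) atTop (𝓝 (∫ x, f x ∂μ))

/-- `x ↦ exp(2πiλx)` is square integrable for a finite measure. -/
lemma memLp_exp (ρ : Measure ℝ) [IsFiniteMeasure ρ] (lam : ℝ) :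
    MemLp (fun x : ℝ => Complex.exp (2 * Real.pi * Complex.I * lam * x)) 2 ρ := by
  apply MemLp.of_bound (C := 1)
  · apply Continuous.aestronglyMeasurable; fun_prop
  · refine Eventually.of_forall (fun x => ?_)
    have : (2 * Real.pi * Complex.I * lam * x : ℂ)
        = ((2 * Real.pi * lam * x : ℝ) : ℂ) * Complex.I := by
      push_cast; ring
    rw [this, Complex.norm_exp_ofReal_mul_I]

/-- The class of `x ↦ exp(2πiλx)` in `L²(ρ)`. -/
noncomputable def expL2 (ρ : Measure ℝ) [IsFiniteMeasure ρ] (lam : ℝ) : Lp ℂ 2 ρ :=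
  MemLp.toLp (fun x : ℝ => Complex.exp (2 * Real.pi * Complex.I * lam * x)) (memLp_exp ρ lam)

/-- `Λ` is a spectrum of `ρ`: `Λ` is countable and the exponentials `exp(2πiλx)`, `λ ∈ Λ`, are an
orthonormal (Hilbert) basis of `L²(ρ)`. -/
def IsSpectrum (ρ : Measure ℝ) [IsFiniteMeasure ρ] (Λ : Set ℝ) : Prop :=
  Λ.Countable ∧ ∃ b : HilbertBasis Λ ℂ (Lp ℂ 2 ρ), ∀ t : Λ, b t = expL2 ρ t

/-- `A ⊕ B = ℤ`: every sum `a + b` is an integer, and every integer has exactly one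
representation `a + b` with `a ∈ A`, `b ∈ B`. -/
def IsDirectSumInt (A B : Set ℝ) : Prop :=
  (∀ a ∈ A, ∀ b ∈ B, ∃ n : ℤ, a + b = n) ∧
    ∀ n : ℤ, ∃! p : ℝ × ℝ, p.1 ∈ A ∧ p.2 ∈ B ∧ p.1 + p.2 = n

end Pool.Agent.Work.MP_47966f_an
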