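import Pool.Agent.Work.MP_47966f_an.Defs

set_option autoImplicit false

namespace Pool.Agent.Work.MP_47966f_an

open MeasureTheory Filter Topology Complex
open scoped ENNReal RealInnerProductSpace

/-- An integrable real function whose Fourier transform (against `ρ`) vanishes is `0` a.e. -/
lemma ae_zero_of_fourier (ρ : Measure ℝ) [IsFiniteMeasure ρ] (u : ℝ → ℝ) (hu : Integrable u ρ)
    (h : ∀ ξ : ℝ, ∫ x, (u x : ℂ) * exp (ξ * x * I) ∂ρ = 0) : u =ᵐ[ρ] 0 := by
  set P := ρ.withDensity (fun x => ENNReal.ofReal (u x)) with hP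
  set Q := ρ.withDensity (fun x => ENNReal.ofReal (-u x)) with hQ
  have : IsFiniteMeasure P := isFiniteMeasure_withDensity_ofReal hu.2
  have : IsFiniteMeasure Q := isFiniteMeasure_withDensity_ofReal hu.neg.2
  have hm1 : AEMeasurable (fun x => ENNReal.ofReal (u x)) ρ := hu.1.aemeasurable.ennreal_ofReal
  have hm2 : AEMeasurable (fun x => ENNReal.ofReal (-u x)) ρ :=
    hu.neg.1.aemeasurable.ennreal_ofReal
  have hcont : ∀ ξ : ℝ, Continuous fun x : ℝ => exp (ξ * x * I) := by
    intro ξ; fun_prop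
  have hnorm : ∀ ξ x : ℝ, ‖exp (ξ * x * I)‖ = 1 := by
    intro ξ x
    have : (ξ * x * I : ℂ) = ((ξ * x : ℝ) : ℂ) * I := by push_cast; ring
    rw [this, norm_exp_ofReal_mul_I]
  have hint : ∀ (w : ℝ → ℝ), Integrable w ρ → ∀ ξ : ℝ,
      Integrable (fun x => (w x : ℂ) * exp (ξ * x * I)) ρ := by
    intro w hw ξ
    apply hw.ofReal.mul_bdd (c := 1) (hcont ξ).aestronglyMeasurable
    exact Eventually.of_forall (fun x => (hnorm ξ x).le)
  have hPQ : P = Q := by
    apply Measure.ext_of_charFun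
    funext ξ
    rw [charFun_apply_real, charFun_apply_real, hP, hQ,
      integral_withDensity_eq_integral_toReal_smul₀ hm1 (by simp),
      integral_withDensity_eq_integral_toReal_smul₀ hm2 (by simp), ← sub_eq_zero,
      ← integral_sub]
    · rw [← h ξ]
      apply integral_congr_ae
      refine Eventually.of_forall (fun x => ?_)
      simp only [ENNReal.toReal_ofReal', real_smul]
      rw [← sub_mul]
      congr 1
      rw [← ofReal_sub]
      congr 1
      rcases le_total 0 (u x) with h0 | h0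
      · rw [max_eq_left h0, max_eq_right (by linarith)]; ring
      · rw [max_eq_right h0, max_eq_left (by linarith)]; ring
    · have := hint (fun x => max (u x) 0) hu.pos_part ξ
      simpa [ENNReal.toReal_ofReal', real_smul] using this
    · have := hint (fun x => max (-u x) 0) hu.neg.pos_part ξ
      simpa [ENNReal.toReal_ofReal', real_smul] using this
  have h2 := (withDensity_eq_iff hm1 hm2 (by
    have := hu.lintegral_lt_top
    exact this.ne)).1 (hP ▸ hQ ▸ hPQ)
  filter_upwards [h2] with x hx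
  rcases le_total 0 (u x) with h0 | h0
  · rw [ENNReal.ofReal_of_nonpos (show -u x ≤ 0 by linarith), ENNReal.ofReal_eq_zero] at hx
    exact le_antisymm hx h0
  · rw [ENNReal.ofReal_of_nonpos h0, eq_comm, ENNReal.ofReal_eq_zero] at hx
    have : u x = 0 := by linarith
    exact this

lemma inner_expL2 (ρ : Measure ℝ) [IsFiniteMeasure ρ] (s t : ℝ) :
    inner ℂ (expL2 ρ s) (expL2 ρ t) = charFun ρ (2 * Real.pi * (t - s)) := by
  rw [L2.inner_def, charFun_apply_real]
  apply integral_congr_ae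
  filter_upwards [MemLp.coeFn_toLp (memLp_exp ρ s), MemLp.coeFn_toLp (memLp_exp ρ t)] with x h1 h2
  unfold expL2
  rw [h1, h2]
  simp only [RCLike.inner_apply]
  rw [← Complex.exp_conj, ← Complex.exp_add]
  congr 1
  simp only [map_mul, Complex.conj_ofReal, Complex.conj_I, map_ofNat]
  push_cast
  ring

lemma norm_expL2 (ρ : Measure ℝ) [IsProbabilityMeasure ρ] (s : ℝ) : ‖expL2 ρ s‖ = 1 := by
  have h := inner_expL2 ρ s s
  rw [sub_self, mul_zero, charFun_zero] at h
  have h3 : ‖expL2 ρ s‖ ^ 2 = 1 := by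
    rw [← inner_self_eq_norm_sq (𝕜 := ℂ) (expL2 ρ s), h]
    simp
  nlinarith [norm_nonneg (expL2 ρ s)]

/-- A function in `L²(ρ)` orthogonal to all exponentials with rational frequency is `0`. -/
lemma eq_zero_of_orthogonal (ρ : Measure ℝ) [IsFiniteMeasure ρ] (f : Lp ℂ 2 ρ)
    (h : ∀ ξ : ℚ, inner ℂ (expL2 ρ ξ) f = 0) : f = 0 := by
  have hf1 : Integrable f ρ := (Lp.memLp f).integrable (by norm_num)
  -- all real frequencies
  have hreal : ∀ ξ : ℝ, ∫ x, f x * exp (-(2 * Real.pi * I * ξ * x)) ∂ρ = 0 := by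
    have hcont : Continuous (fun ξ : ℝ => ∫ x, f x * exp (-(2 * Real.pi * I * ξ * x)) ∂ρ) := by
      apply continuous_of_dominated (bound := fun x => ‖f x‖)
      · intro ξ
        apply hf1.1.mul
        apply Continuous.aestronglyMeasurable; fun_prop
      · intro ξ
        refine Eventually.of_forall (fun x => ?_)
        rw [norm_mul]
        have : (-(2 * Real.pi * I * ξ * x) : ℂ) = ((-(2 * Real.pi * ξ * x) : ℝ) : ℂ) * I := by
          push_cast; ring
        rw [this, norm_exp_ofReal_mul_I, mul_one]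
      · exact hf1.norm
      · refine Eventually.of_forall (fun x => ?_)
        fun_prop
    have hrat : ∀ ξ : ℚ, ∫ x, f x * exp (-(2 * Real.pi * I * (ξ : ℝ) * x)) ∂ρ = 0 := by
      intro ξ
      rw [← h ξ, L2.inner_def]
      apply integral_congr_ae
      filter_upwards [MemLp.coeFn_toLp (memLp_exp ρ ξ)] with x h1
      unfold expL2
      rw [h1]
      simp only [RCLike.inner_apply]
      rw [← Complex.exp_conj]
      congr 2
      simp only [map_mul, Complex.conj_ofReal, Complex.conj_I, map_ofNat]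
      push_cast
      ring
    intro ξ
    have := hcont.ext_on Rat.denseRange_cast (continuous_const (y := (0 : ℂ))) (by
      rintro _ ⟨q, rfl⟩
      exact hrat q)
    exact congrFun this ξ
  have hall : ∀ ξ : ℝ, ∫ x, f x * exp (ξ * x * I) ∂ρ = 0 := by
    intro ξ
    rw [← hreal (-ξ / (2 * Real.pi))]
    apply integral_congr_ae
    refine Eventually.of_forall (fun x => ?_)
    simp only
    congr 2
    have : (Real.pi : ℂ) ≠ 0 := by exact_mod_cast Real.pi_ne_zero
    push_cast
    field_simp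
  have hallc : ∀ ξ : ℝ, ∫ x, (starRingEnd ℂ) (f x) * exp (ξ * x * I) ∂ρ = 0 := by
    intro ξ
    have h1 := congrArg (starRingEnd ℂ) (hall (-ξ))
    rw [← integral_conj, map_zero] at h1
    rw [← h1]
    apply integral_congr_ae
    refine Eventually.of_forall (fun x => ?_)
    simp only [map_mul]
    rw [← Complex.exp_conj]
    congr 2
    simp only [map_mul, Complex.conj_ofReal, Complex.conj_I]
    push_cast
    ring
  have hexpint : ∀ (w : ℝ → ℂ), Integrable w ρ → ∀ ξ : ℝ,
      Integrable (fun x => w x * exp (ξ * x * I)) ρ := by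
    intro w hw ξ
    apply hw.mul_bdd (c := 1) (Continuous.aestronglyMeasurable (by fun_prop))
    refine Eventually.of_forall (fun x => ?_)
    have : (ξ * x * I : ℂ) = ((ξ * x : ℝ) : ℂ) * I := by push_cast; ring
    rw [this, norm_exp_ofReal_mul_I]
  have hfc : Integrable (fun x => (starRingEnd ℂ) (f x)) ρ :=
    (LinearIsometryEquiv.integrable_comp_iff Complex.conjLIE).2 hf1
  have hre : (fun x => (f x).re) =ᵐ[ρ] 0 := by
    apply ae_zero_of_fourier ρ _ hf1.re
    intro ξ
    have h1 : ∀ x, ((f x).re : ℂ) * exp (ξ * x * I)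
        = (1 / 2 : ℂ) * (f x * exp (ξ * x * I) + (starRingEnd ℂ) (f x) * exp (ξ * x * I)) := by
      intro x
      rw [← add_mul, Complex.add_conj]
      push_cast; ring
    refine (integral_congr_ae (Eventually.of_forall h1)).trans ?_
    rw [integral_const_mul, integral_add (hexpint _ hf1 ξ) (hexpint _ hfc ξ), hall, hallc,
      add_zero, mul_zero]
  have him : (fun x => (f x).im) =ᵐ[ρ] 0 := by
    apply ae_zero_of_fourier ρ _ hf1.im
    intro ξ
    have h1 : ∀ x, ((f x).im : ℂ) * exp (ξ * x * I)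
        = (1 / (2 * I) : ℂ) * (f x * exp (ξ * x * I) - (starRingEnd ℂ) (f x) * exp (ξ * x * I)) := by
      intro x
      rw [← sub_mul, Complex.sub_conj]
      push_cast
      field_simp
    refine (integral_congr_ae (Eventually.of_forall h1)).trans ?_
    rw [integral_const_mul, integral_sub (hexpint _ hf1 ξ) (hexpint _ hfc ξ), hall, hallc,
      sub_zero, mul_zero]
  have hf0 : (f : ℝ → ℂ) =ᵐ[ρ] 0 := by
    filter_upwards [hre, him] with x h1 h2
    apply Complex.ext
    · simpa using h1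
    · simpa using h2
  exact (Lp.eq_zero_iff_ae_eq_zero).2 hf0

/-- A criterion for an orthonormal family of exponentials to be an orthonormal basis. -/
lemma hilbertBasis_of_mass (ρ : Measure ℝ) [IsProbabilityMeasure ρ] (Λ : Set ℝ)
    (horth : ∀ s ∈ Λ, ∀ t ∈ Λ, s ≠ t → charFun ρ (2 * Real.pi * (t - s)) = 0)
    (hmass : ∀ ξ : ℚ, ∀ ε : ℝ, 0 < ε → ∃ F : Finset ℝ, (∀ b ∈ F, b ∈ Λ) ∧
      1 - ∑ b ∈ F, ‖charFun ρ (2 * Real.pi * (ξ - b))‖ ^ 2 < ε) :
    ∃ b : HilbertBasis Λ ℂ (Lp ℂ 2 ρ), ∀ t : Λ, b t = expL2 ρ t := by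
  classical
  have hon : Orthonormal ℂ (fun t : Λ => expL2 ρ (t : ℝ)) := by
    refine ⟨fun t => norm_expL2 ρ t, fun s t hst => ?_⟩
    simp only
    rw [inner_expL2]
    exact horth s s.2 t t.2 (fun h => hst (Subtype.ext h))
  have hbot : (Submodule.span ℂ (Set.range (fun t : Λ => expL2 ρ (t : ℝ))))ᗮ = ⊥ := by
    rw [Submodule.eq_bot_iff]
    intro f hf
    have hfo : ∀ t ∈ Λ, inner ℂ (expL2 ρ t) f = 0 := by
      intro t ht
      exact (Submodule.mem_orthogonal _ _).1 hf _ (Submodule.subset_span ⟨⟨t, ht⟩, rfl⟩)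
    apply eq_zero_of_orthogonal
    intro ξ
    -- |<e_ξ, f>|² ≤ ε ‖f‖²
    have hbound : ∀ ε : ℝ, 0 < ε → ‖inner ℂ (expL2 ρ (ξ : ℝ)) f‖ ^ 2 ≤ ε * ‖f‖ ^ 2 := by
      intro ε hε
      obtain ⟨F, hFΛ, hF⟩ := hmass ξ ε hε
      set e := expL2 ρ (ξ : ℝ) with he
      set w := e - ∑ b ∈ F, inner ℂ (expL2 ρ b) e • expL2 ρ b with hw
      have horthF : ∀ s ∈ F, ∀ t ∈ F, inner ℂ (expL2 ρ s) (expL2 ρ t)
          = if s = t then (1 : ℂ) else 0 := by
        intro s hs t ht
        by_cases hst : s = t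
        · subst hst
          rw [if_pos rfl, inner_self_eq_norm_sq_to_K, norm_expL2]; simp
        · rw [if_neg hst, inner_expL2]
          exact horth s (hFΛ s hs) t (hFΛ t ht) hst
      have hwf : inner ℂ e f = inner ℂ w f := by
        rw [hw, inner_sub_left, sum_inner]
        have : ∑ b ∈ F, inner ℂ (inner ℂ (expL2 ρ b) e • expL2 ρ b) f = 0 := by
          apply Finset.sum_eq_zero
          intro b hb
          rw [inner_smul_left, hfo b (hFΛ b hb), mul_zero]
        rw [this, sub_zero]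
      have hwb : ∀ b ∈ F, inner ℂ (expL2 ρ b) w = 0 := by
        intro b hb
        rw [hw, inner_sub_right, inner_sum]
        have : ∑ c ∈ F, inner ℂ (expL2 ρ b) (inner ℂ (expL2 ρ c) e • expL2 ρ c)
            = inner ℂ (expL2 ρ b) e := by
          rw [Finset.sum_congr rfl (fun c hc => by rw [inner_smul_right, horthF b hb c hc])]
          simp [Finset.sum_ite_eq, hb]
        rw [this, sub_self]
      have hwn : (‖w‖ ^ 2 : ℝ) = 1 - ∑ b ∈ F, ‖charFun ρ (2 * Real.pi * (ξ - b))‖ ^ 2 := by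
        have h1 : inner ℂ w w = inner ℂ w e := by
          conv_lhs => rw [hw]
          rw [inner_sub_right, inner_sum]
          have : ∑ b ∈ F, inner ℂ w (inner ℂ (expL2 ρ b) e • expL2 ρ b) = 0 := by
            apply Finset.sum_eq_zero
            intro b hb
            rw [inner_smul_right, ← inner_conj_symm w, hwb b hb, map_zero, mul_zero]
          rw [this, sub_zero]
        have h2 : inner ℂ w e = 1 - ∑ b ∈ F, ((‖charFun ρ (2 * Real.pi * (ξ - b))‖ ^ 2 : ℝ) : ℂ) := by
          rw [hw, inner_sub_left, sum_inner, inner_self_eq_norm_sq_to_K, he, norm_expL2]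
          simp only [RCLike.ofReal_one, one_pow]
          congr 1
          apply Finset.sum_congr rfl
          intro b hb
          rw [inner_smul_left, inner_expL2]
          rw [← Complex.normSq_eq_norm_sq, ← Complex.mul_conj, mul_comm]
        have h3 : inner ℂ w w = ((‖w‖ ^ 2 : ℝ) : ℂ) := by
          rw [inner_self_eq_norm_sq_to_K]; push_cast; rfl
        rw [h3] at h1
        rw [h2] at h1
        exact_mod_cast h1
      calc ‖inner ℂ e f‖ ^ 2 = ‖inner ℂ w f‖ ^ 2 := by rw [hwf]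
        _ ≤ (‖w‖ * ‖f‖) ^ 2 := by
            apply pow_le_pow_left₀ (norm_nonneg _) (norm_inner_le_norm _ _)
        _ = ‖w‖ ^ 2 * ‖f‖ ^ 2 := by ring
        _ ≤ ε * ‖f‖ ^ 2 := by
            apply mul_le_mul_of_nonneg_right _ (by positivity)
            rw [hwn]; exact hF.le
    have h0 : ‖inner ℂ (expL2 ρ (ξ : ℝ)) f‖ ^ 2 ≤ 0 := by
      by_contra hpos
      push Not at hpos
      have h1 := hbound (‖inner ℂ (expL2 ρ (ξ : ℝ)) f‖ ^ 2 / (2 * (‖f‖ ^ 2 + 1))) (by positivity)
      have h2 : ‖inner ℂ (expL2 ρ (ξ : ℝ)) f‖ ^ 2 / (2 * (‖f‖ ^ 2 + 1)) * ‖f‖ ^ 2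
          < ‖inner ℂ (expL2 ρ (ξ : ℝ)) f‖ ^ 2 := by
        rw [div_mul_eq_mul_div, div_lt_iff₀ (by positivity)]
        nlinarith [sq_nonneg ‖f‖]
      linarith
    have h1 : ‖inner ℂ (expL2 ρ (ξ : ℝ)) f‖ ^ 2 = 0 := le_antisymm h0 (by positivity)
    rw [← norm_eq_zero]
    exact pow_eq_zero_iff (two_ne_zero) |>.mp h1
  refine ⟨HilbertBasis.mkOfOrthogonalEqBot hon hbot, fun t => ?_⟩
  rw [HilbertBasis.coe_mkOfOrthogonalEqBot]

/-- A spectrum is a maximal orthogonal set. -/
lemma exists_nonorthogonal (ρ : Measure ℝ) [IsProbabilityMeasure ρ] (Λ : Set ℝ)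
    (b : HilbertBasis Λ ℂ (Lp ℂ 2 ρ)) (hb : ∀ t : Λ, b t = expL2 ρ t) (c : ℝ) :
    ∃ t ∈ Λ, charFun ρ (2 * Real.pi * (c - t)) ≠ 0 := by
  by_contra hcon
  push Not at hcon
  have h1 : ∀ t : Λ, b.repr (expL2 ρ c) t = 0 := by
    intro t
    rw [b.repr_apply_apply, hb, inner_expL2]
    exact hcon t t.2
  have h2 : b.repr (expL2 ρ c) = 0 := by
    ext t
    simpa using h1 t
  have h3 : expL2 ρ c = 0 := by
    have := congrArg b.repr.symm h2
    simpa using this
  have h4 := norm_expL2 ρ c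
  rw [h3, norm_zero] at h4
  norm_num at h4

lemma orthogonal_of_basis (ρ : Measure ℝ) [IsProbabilityMeasure ρ] (Λ : Set ℝ)
    (b : HilbertBasis Λ ℂ (Lp ℂ 2 ρ)) (hb : ∀ t : Λ, b t = expL2 ρ t) {s t : ℝ} (hs : s ∈ Λ)
    (ht : t ∈ Λ) (hst : s ≠ t) : charFun ρ (2 * Real.pi * (t - s)) = 0 := by
  rw [← inner_expL2, ← hb ⟨s, hs⟩, ← hb ⟨t, ht⟩]
  exact b.orthonormal.2 (fun h => hst (congrArg Subtype.val h))

end Pool.Agent.Work.MP_47966f_an
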