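import Pool.Agent.Work.MP_47966f_an.Hilbert
import Pool.Agent.Work.MP_47966f_an.Construct

set_option autoImplicit false

namespace Pool.Agent.Work.MP_47966f_an

open MeasureTheory Filter Topology Complex
open scoped ENNReal

lemma MM_cast (N : ℕ → ℕ) (k : ℕ) : (MM N k : ℝ) = ∏ i ∈ Finset.Icc 1 k, (N i : ℝ) := by
  simp [MM]

section
variable {N : ℕ → ℕ} (hN : ∀ k, 1 ≤ k → 2 ≤ N k)
include hN

lemma isProb_nuMeas (k : ℕ) (hk : 1 ≤ k) : IsProbabilityMeasure (nuMeas N k) := by
  constructor
  have h1 := hN k hk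
  have h2 : (N k : ℝ≥0∞) ≠ 0 := by
    exact_mod_cast (by omega : N k ≠ 0)
  simp only [nuMeas, Measure.smul_apply, Measure.finsetSum_apply, measure_univ,
    Finset.sum_const, Finset.card_range, smul_eq_mul, nsmul_eq_mul, mul_one]
  exact ENNReal.inv_mul_cancel h2 (ENNReal.natCast_ne_top _)

lemma charFun_nuMeas (k : ℕ) (hk : 1 ≤ k) (s : ℝ) :
    charFun (nuMeas N k) s = g N k (s / (2 * Real.pi)) := by
  have h1 := hN k hk
  rw [charFun_apply_real, nuMeas, integral_smul_measure, integral_finsetSum_measure]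
  · unfold g
    rw [ENNReal.toReal_inv, ENNReal.toReal_natCast]
    rw [real_smul]
    push_cast
    congr 1
    apply Finset.sum_congr rfl
    intro j _
    rw [integral_dirac, ← MM_cast]
    congr 1
    have hpi : (Real.pi : ℂ) ≠ 0 := by exact_mod_cast Real.pi_ne_zero
    push_cast
    field_simp
  · intro j _
    exact integrable_dirac (by simp)

lemma isProb_oddConv (n : ℕ) : IsProbabilityMeasure (oddConv N n) := by
  induction n with
  | zero => unfold oddConv; infer_instance
  | succ n ih =>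
    have := isProb_nuMeas hN (2 * n + 1) (by omega)
    unfold oddConv
    infer_instance

lemma isProb_evenConv (n : ℕ) : IsProbabilityMeasure (evenConv N n) := by
  induction n with
  | zero => unfold evenConv; infer_instance
  | succ n ih =>
    have := isProb_nuMeas hN (2 * n + 2) (by omega)
    unfold evenConv
    infer_instance

lemma charFun_oddConv (n : ℕ) (s : ℝ) :
    charFun (oddConv N n) s = GS N Odd (2 * n) (s / (2 * Real.pi)) := by
  induction n with
  | zero => simp [oddConv, GS]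
  | succ n ih =>
    have h1 := isProb_nuMeas hN (2 * n + 1) (by omega)
    have h2 := isProb_oddConv hN n
    rw [show 2 * (n + 1) = (2 * n + 1) + 1 by ring]
    rw [GS_succ_not Odd _ (by rw [Nat.not_odd_iff_even]; exact ⟨n + 1, by ring⟩),
      GS_succ_of Odd _ ⟨n, rfl⟩, ← ih, ← charFun_nuMeas hN _ (by omega)]
    exact charFun_conv (μ := oddConv N n) (ν := nuMeas N (2 * n + 1)) s

lemma charFun_evenConv (n : ℕ) (s : ℝ) :
    charFun (evenConv N n) s = GS N Even (2 * n) (s / (2 * Real.pi)) := by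
  induction n with
  | zero => simp [evenConv, GS]
  | succ n ih =>
    have h1 := isProb_nuMeas hN (2 * n + 2) (by omega)
    have h2 := isProb_evenConv hN n
    rw [show 2 * (n + 1) = (2 * n + 1) + 1 by ring]
    rw [GS_succ_of Even _ ⟨n + 1, by ring⟩,
      GS_succ_not Even _ (by rw [Nat.not_even_iff_odd]; exact ⟨n, rfl⟩),
      ← ih, ← charFun_nuMeas hN _ (by omega)]
    exact charFun_conv (μ := evenConv N n) (ν := nuMeas N (2 * n + 2)) s

omit hN in
/-- Weak convergence in terms of characteristic functions. -/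
lemma isWeakLimit_iff (m : ℕ → Measure ℝ) (hm : ∀ n, IsProbabilityMeasure (m n)) (μ : Measure ℝ)
    [IsProbabilityMeasure μ] :
    IsWeakLimit m μ ↔ ∀ s, Tendsto (fun n => charFun (m n) s) atTop (𝓝 (charFun μ s)) := by
  let mp : ℕ → ProbabilityMeasure ℝ := fun n => ⟨m n, hm n⟩
  let μp : ProbabilityMeasure ℝ := ⟨μ, inferInstance⟩
  have h1 : IsWeakLimit m μ ↔ Tendsto mp atTop (𝓝 μp) := by
    rw [ProbabilityMeasure.tendsto_iff_forall_integral_tendsto]
    rfl
  rw [h1, ProbabilityMeasure.tendsto_iff_tendsto_charFun]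
  rfl

/-- For a weak limit, the squared modulus of the characteristic function is the limit of the
squared moduli of the products. -/
lemma tendsto_of_weak (S : ℕ → Prop) [DecidablePred S] (m : ℕ → Measure ℝ)
    (hm : ∀ n, IsProbabilityMeasure (m n))
    (hch : ∀ n s, charFun (m n) s = GS N S (2 * n) (s / (2 * Real.pi)))
    (μ : Measure ℝ) [IsProbabilityMeasure μ] (hw : IsWeakLimit m μ) (t : ℝ) :
    Tendsto (fun n => ‖GS N S n t‖ ^ 2) atTop (𝓝 (‖charFun μ (2 * Real.pi * t)‖ ^ 2)) := by
  have h1 := (isWeakLimit_iff m hm μ).1 hw (2 * Real.pi * t)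
  have h2 : Tendsto (fun n => ‖GS N S (2 * n) t‖ ^ 2) atTop
      (𝓝 (‖charFun μ (2 * Real.pi * t)‖ ^ 2)) := by
    have h3 := (h1.norm).pow 2
    refine h3.congr (fun n => ?_)
    rw [hch]
    congr 3
    field_simp
  have hanti : Antitone (fun n => ‖GS N S n t‖ ^ 2) := fun k n hkn => GS_anti hN S k n hkn t
  exact (tendsto_iff_tendsto_subseq_of_antitone hanti
    (show Tendsto (fun n : ℕ => 2 * n) atTop atTop from
      tendsto_id.const_mul_atTop' (by norm_num))).2 h2

lemma g_sub_one_le (k : ℕ) (hk : 1 ≤ k) (t : ℝ) :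
    ‖g N k t - 1‖ ≤ 2 * Real.pi * |t| * (1 / 2) ^ (k - 1) := by
  have hNk := hN k hk
  have hN0 : (0 : ℝ) < N k := by exact_mod_cast (by omega : 0 < N k)
  have hM0 : (0 : ℝ) < MM N k := by exact_mod_cast MM_pos hN k
  have hM1 : (0 : ℝ) < MM N (k - 1) := by exact_mod_cast MM_pos hN (k - 1)
  have hMM : (MM N k : ℝ) = MM N (k - 1) * N k := by
    have := MM_succ N (k - 1)
    rw [Nat.sub_add_cancel hk] at this
    exact_mod_cast this
  have h1 : g N k t - 1 = (N k : ℂ)⁻¹ * ∑ d ∈ Finset.range (N k),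
      (exp (2 * Real.pi * I * t * d / (MM N k : ℂ)) - 1) := by
    rw [Finset.sum_sub_distrib, mul_sub]
    unfold g
    congr 1
    have : (N k : ℂ) ≠ 0 := by exact_mod_cast hN0.ne'
    simp [this]
  have h2 : ∀ d ∈ Finset.range (N k), ‖exp (2 * Real.pi * I * t * d / (MM N k : ℂ)) - 1‖
      ≤ 2 * Real.pi * |t| * (1 / 2) ^ (k - 1) := by
    intro d hd
    have hd' : (d : ℝ) ≤ N k := by exact_mod_cast (Finset.mem_range.mp hd).le
    have h3 : (2 * Real.pi * I * t * d / (MM N k : ℂ))
        = I * ((2 * Real.pi * t * d / MM N k : ℝ) : ℂ) := by push_cast; ring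
    rw [h3]
    refine (Real.norm_exp_I_mul_ofReal_sub_one_le).trans ?_
    rw [Real.norm_eq_abs, abs_div, abs_mul, abs_mul, abs_mul, abs_of_pos hM0,
      abs_of_pos Real.pi_pos, abs_of_nonneg (show (0 : ℝ) ≤ 2 by norm_num),
      abs_of_nonneg (show (0 : ℝ) ≤ d by positivity)]
    calc 2 * Real.pi * |t| * d / MM N k ≤ 2 * Real.pi * |t| * N k / MM N k := by gcongr
      _ = 2 * Real.pi * |t| * (1 / MM N (k - 1)) := by rw [hMM]; field_simp
      _ ≤ 2 * Real.pi * |t| * (1 / 2) ^ (k - 1) := by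
          apply mul_le_mul_of_nonneg_left _ (by positivity)
          rw [one_div_pow]
          apply one_div_le_one_div_of_le (by positivity)
          exact_mod_cast two_pow_le_MM hN (k - 1)
  rw [h1, norm_mul, norm_inv, Complex.norm_natCast, inv_mul_le_iff₀ hN0]
  calc _ ≤ ∑ d ∈ Finset.range (N k), ‖exp (2 * Real.pi * I * t * d / (MM N k : ℂ)) - 1‖ :=
        norm_sum_le _ _
    _ ≤ ∑ d ∈ Finset.range (N k), 2 * Real.pi * |t| * (1 / 2) ^ (k - 1) := Finset.sum_le_sum h2
    _ = _ := by simp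

/-- Existence of the weak limit. -/
lemma exists_weakLimit (S : ℕ → Prop) [DecidablePred S] (m : ℕ → Measure ℝ)
    (hm : ∀ n, IsProbabilityMeasure (m n))
    (hch : ∀ n s, charFun (m n) s = GS N S (2 * n) (s / (2 * Real.pi))) :
    ∃ μ : Measure ℝ, IsProbabilityMeasure μ ∧ IsWeakLimit m μ := by
  have hstep : ∀ (t : ℝ) (n : ℕ), dist (GS N S n t) (GS N S (n + 1) t)
      ≤ 2 * Real.pi * |t| * (1 / 2) ^ n := by
    intro t n
    by_cases h : S (n + 1)
    · rw [GS_succ_of S n h, dist_comm, dist_eq_norm]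
      have : GS N S n t * g N (n + 1) t - GS N S n t = GS N S n t * (g N (n + 1) t - 1) := by ring
      rw [this, norm_mul]
      calc _ ≤ 1 * (2 * Real.pi * |t| * (1 / 2) ^ (n + 1 - 1)) := by
            apply mul_le_mul (GS_norm_le hN S n t) (g_sub_one_le hN (n + 1) (by omega) t)
              (norm_nonneg _) (by norm_num)
        _ = _ := by simp
    · rw [GS_succ_not S n h, dist_self]; positivity
  have hlim : ∀ t : ℝ, ∃ z : ℂ, Tendsto (fun n => GS N S n t) atTop (𝓝 z) := by
    intro t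
    exact cauchySeq_tendsto_of_complete
      (cauchySeq_of_le_geometric (1 / 2) (2 * Real.pi * |t|) (by norm_num) (hstep t))
  choose F hF using hlim
  have hF1 : ∀ t, dist 1 (F t) ≤ 4 * Real.pi * |t| := by
    intro t
    have := dist_le_of_le_geometric_of_tendsto₀ (1 / 2) (2 * Real.pi * |t|) (by norm_num)
      (hstep t) (hF t)
    rw [GS_zero] at this
    calc _ ≤ 2 * Real.pi * |t| / (1 - 1 / 2) := this
      _ = _ := by ring
  have hF0 : F 0 = 1 := by
    have := hF1 0
    rw [abs_zero, mul_zero] at this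
    have h2 := dist_le_zero.mp this
    exact h2.symm
  have hcont : ContinuousAt (fun s : ℝ => F (s / (2 * Real.pi))) 0 := by
    rw [Metric.continuousAt_iff]
    intro ε hε
    refine ⟨ε / 4, by positivity, fun {s} hs => ?_⟩
    rw [zero_div, hF0, dist_comm]
    rw [Real.dist_eq, sub_zero] at hs
    have hpi := Real.pi_pos
    calc dist 1 (F (s / (2 * Real.pi))) ≤ 4 * Real.pi * |s / (2 * Real.pi)| := hF1 _
      _ = 2 * |s| := by
          rw [abs_div, abs_of_pos (show 0 < 2 * Real.pi by positivity)]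
          field_simp; ring
      _ < ε := by linarith [abs_nonneg s]
  have htend : ∀ s, Tendsto (fun n => charFun (m n) s) atTop (𝓝 (F (s / (2 * Real.pi)))) := by
    intro s
    have h1 := (hF (s / (2 * Real.pi))).comp
      (show Tendsto (fun n : ℕ => 2 * n) atTop atTop from
        tendsto_id.const_mul_atTop' (by norm_num))
    refine h1.congr (fun n => ?_)
    rw [hch]; rfl
  have htight : IsTightMeasureSet (Set.range m) := isTightMeasureSet_of_tendsto_charFun hcont htend
  let mp : ℕ → ProbabilityMeasure ℝ := fun n => ⟨m n, hm n⟩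
  have htight' : IsTightMeasureSet {((ρ : ProbabilityMeasure ℝ) : Measure ℝ) | ρ ∈ Set.range mp} := by
    convert htight using 1
    ext ρ
    constructor
    · rintro ⟨_, ⟨n, rfl⟩, rfl⟩
      exact ⟨n, rfl⟩
    · rintro ⟨n, rfl⟩
      exact ⟨mp n, ⟨n, rfl⟩, rfl⟩
  have hcomp := isCompact_closure_of_isTightMeasureSet htight'
  let U : Ultrafilter ℕ := Ultrafilter.of atTop
  have hU : (U : Filter ℕ) ≤ atTop := Ultrafilter.of_le atTop
  obtain ⟨μ, -, hμ⟩ := hcomp.ultrafilter_le_nhds (U.map mp) (by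
    rw [Ultrafilter.coe_map]
    refine le_principal_iff.2 ?_
    exact Filter.mem_map.2 (Filter.univ_mem' (fun n => subset_closure ⟨n, rfl⟩)))
  have hμ' : Tendsto mp (U : Filter ℕ) (𝓝 μ) := hμ
  refine ⟨μ, inferInstance, ?_⟩
  rw [isWeakLimit_iff m hm]
  intro s
  have h1 : Tendsto (fun n => charFun (m n) s) (U : Filter ℕ) (𝓝 (charFun (μ : Measure ℝ) s)) := by
    rw [ProbabilityMeasure.tendsto_iff_forall_integral_rclike_tendsto ℂ] at hμ'
    simp_rw [charFun_eq_integral_innerProbChar]
    exact hμ' (BoundedContinuousFunction.innerProbChar s)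
  have h2 := (htend s).mono_left hU
  rw [tendsto_nhds_unique h1 h2]
  exact htend s

end

end Pool.Agent.Work.MP_47966f_an
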