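import Pool.Agent.Work.MP_47966f_an.Trig

set_option autoImplicit false

namespace Pool.Agent.Work.MP_47966f_an

open Complex Filter Topology

/-- Product of the factors `g N j t` over `1 ≤ j ≤ k` with `S j`. -/
noncomputable def GS (N : ℕ → ℕ) (S : ℕ → Prop) [DecidablePred S] (k : ℕ) (t : ℝ) : ℂ :=
  ∏ j ∈ (Finset.Icc 1 k).filter S, g N j t

section
variable {N : ℕ → ℕ} (hN : ∀ k, 1 ≤ k → 2 ≤ N k)
include hN

omit hN in
lemma g_neg (k : ℕ) (t : ℝ) : g N k (-t) = (starRingEnd ℂ) (g N k t) := by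
  unfold g
  rw [map_mul, map_sum, map_inv₀, Complex.conj_natCast]
  congr 1
  apply Finset.sum_congr rfl
  intro d _
  rw [← Complex.exp_conj]
  congr 1
  simp only [map_div₀, map_mul, Complex.conj_ofReal, Complex.conj_I, Complex.conj_natCast,
        map_ofNat]
  push_cast
  ring

lemma tail_re (t : ℝ) (ht : 0 ≤ t) (T : Finset ℕ) :
    (∀ j ∈ T, 1 ≤ j) → ∀ φ : ℝ, -(Real.pi / 4) ≤ φ →
      φ + ∑ j ∈ T, 2 * Real.pi * t * ((N j - 1 : ℝ) / MM N j) ≤ Real.pi / 4 →
      √2 / 2 ≤ (exp (φ * I) * ∏ j ∈ T, g N j t).re := by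
  classical
  induction T using Finset.induction_on with
  | empty =>
    intro _ φ h1 h2
    simp only [Finset.sum_empty, add_zero] at h2
    simp only [Finset.prod_empty, mul_one]
    rw [Complex.exp_ofReal_mul_I_re, ← Real.cos_pi_div_four, ← Real.cos_abs φ]
    apply Real.cos_le_cos_of_nonneg_of_le_pi (abs_nonneg _) (by linarith [Real.pi_pos])
    rw [abs_le]; exact ⟨h1, h2⟩
  | insert j T hj ih =>
    intro hT φ h1 h2
    have hj1 : 1 ≤ j := hT j (Finset.mem_insert_self _ _)
    have hNj := hN j hj1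
    have hN0 : (0 : ℝ) < N j := by exact_mod_cast (by omega : 0 < N j)
    have hM0 : (0 : ℝ) < MM N j := by exact_mod_cast MM_pos hN j
    rw [Finset.sum_insert hj] at h2
    rw [Finset.prod_insert hj]
    have hexp : exp (φ * I) * (g N j t * ∏ x ∈ T, g N x t)
        = (((N j : ℝ)⁻¹ : ℝ) : ℂ) * ∑ d ∈ Finset.range (N j),
            (exp (((φ + 2 * Real.pi * t * (d / (MM N j : ℝ)) : ℝ) : ℂ) * I) *
              ∏ x ∈ T, g N x t) := by
      rw [← Finset.sum_mul]
      have : g N j t = (((N j : ℝ)⁻¹ : ℝ) : ℂ) * ∑ d ∈ Finset.range (N j),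
          exp (2 * Real.pi * I * t * d / (MM N j : ℂ)) := by
        unfold g; push_cast; rfl
      rw [this]
      rw [show exp (φ * I) * ((((N j : ℝ)⁻¹ : ℝ) : ℂ) * (∑ d ∈ Finset.range (N j),
          exp (2 * Real.pi * I * t * d / (MM N j : ℂ))) * ∏ x ∈ T, g N x t)
          = (((N j : ℝ)⁻¹ : ℝ) : ℂ) * ((∑ d ∈ Finset.range (N j),
          exp (φ * I) * exp (2 * Real.pi * I * t * d / (MM N j : ℂ))) * ∏ x ∈ T, g N x t) by
            rw [← Finset.mul_sum]; ring]
      congr 2
      apply Finset.sum_congr rfl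
      intro d _
      rw [← Complex.exp_add]
      congr 1
      push_cast
      ring
    rw [hexp, Complex.re_ofReal_mul, Complex.re_sum]
    have hterm : ∀ d ∈ Finset.range (N j), √2 / 2 ≤
        (exp (((φ + 2 * Real.pi * t * (d / (MM N j : ℝ)) : ℝ) : ℂ) * I) *
              ∏ x ∈ T, g N x t).re := by
      intro d hd
      have hd' : (d : ℝ) ≤ N j - 1 := by
        have := Finset.mem_range.mp hd
        have h3 : (d : ℝ) + 1 ≤ N j := by exact_mod_cast this
        linarith
      have hpt : 0 ≤ 2 * Real.pi * t := by positivity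
      apply ih (fun x hx => hT x (Finset.mem_insert_of_mem hx))
      · have : 0 ≤ 2 * Real.pi * t * (d / (MM N j : ℝ)) := by positivity
        linarith
      · have : 2 * Real.pi * t * (d / (MM N j : ℝ))
            ≤ 2 * Real.pi * t * ((N j - 1 : ℝ) / MM N j) := by
          apply mul_le_mul_of_nonneg_left _ hpt
          gcongr
        linarith
    calc √2 / 2 = (N j : ℝ)⁻¹ * ∑ d ∈ Finset.range (N j), (√2 / 2 : ℝ) := by
          simp; field_simp
      _ ≤ _ := by
          apply mul_le_mul_of_nonneg_left _ (by positivity)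
          exact Finset.sum_le_sum hterm

lemma telescope_le (k n : ℕ) :
    ∑ j ∈ Finset.Icc (k + 1) n, ((N j - 1 : ℝ) / MM N j) ≤ 1 / MM N k := by
  have h : ∀ n, k ≤ n → ∑ j ∈ Finset.Icc (k + 1) n, ((N j - 1 : ℝ) / MM N j)
      = 1 / MM N k - 1 / MM N n := by
    intro n hn
    induction n, hn using Nat.le_induction with
    | base => simp
    | succ n hn ih =>
      rw [Finset.sum_Icc_succ_top (by omega), ih]
      have h1 : (MM N (n + 1) : ℝ) = MM N n * N (n + 1) := by
        rw [MM_succ]; push_cast; ring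
      have h2 : (0 : ℝ) < MM N n := by exact_mod_cast MM_pos hN n
      have h3 : (0 : ℝ) < N (n + 1) := by
        have := hN (n + 1) (by omega)
        exact_mod_cast (by omega : 0 < N (n + 1))
      rw [h1]
      field_simp
      ring
  by_cases hkn : k ≤ n
  · rw [h n hkn]
    have h2 : (0 : ℝ) < MM N n := by exact_mod_cast MM_pos hN n
    have : 0 ≤ 1 / (MM N n : ℝ) := by positivity
    linarith
  · rw [Finset.Icc_eq_empty (by omega)]
    simp

lemma tail_norm_sq (k : ℕ) (t : ℝ) (ht : |t| ≤ MM N k / 2) (T : Finset ℕ) (hT : ∀ j ∈ T, k + 2 ≤ j) :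
    1 / 2 ≤ ‖∏ j ∈ T, g N j t‖ ^ 2 := by
  have hM0 : (0 : ℝ) < MM N k := by exact_mod_cast MM_pos hN k
  have hM1 : (0 : ℝ) < MM N (k + 1) := by exact_mod_cast MM_pos hN (k + 1)
  have main : ∀ s : ℝ, 0 ≤ s → s ≤ MM N k / 2 → 1 / 2 ≤ ‖∏ j ∈ T, g N j s‖ ^ 2 := by
    intro s hs0 hs
    have hsum : ∑ j ∈ T, 2 * Real.pi * s * ((N j - 1 : ℝ) / MM N j) ≤ Real.pi / 2 := by
      rw [← Finset.mul_sum]
      have h1 : ∑ j ∈ T, ((N j - 1 : ℝ) / MM N j) ≤ 1 / MM N (k + 1) := by
        refine le_trans ?_ (telescope_le hN (k + 1) (T.sup id))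
        apply Finset.sum_le_sum_of_subset_of_nonneg
        · intro j hj
          rw [Finset.mem_Icc]
          exact ⟨hT j hj, Finset.le_sup (f := id) hj⟩
        · intro j hj _
          have hj' := (Finset.mem_Icc.mp hj).1
          have h3 : (1 : ℝ) ≤ N j := by
            have := hN j (by omega)
            exact_mod_cast (by omega : 1 ≤ N j)
          have : 0 ≤ (N j : ℝ) - 1 := by linarith
          positivity
      have h2 : 2 * Real.pi * s ≤ Real.pi * MM N k := by
        have := Real.pi_pos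
        nlinarith
      have h3 : (MM N (k + 1) : ℝ) = MM N k * N (k + 1) := by rw [MM_succ]; push_cast; ring
      have h4 : (2 : ℝ) ≤ N (k + 1) := by exact_mod_cast hN (k + 1) (by omega)
      calc 2 * Real.pi * s * ∑ j ∈ T, ((N j - 1 : ℝ) / MM N j)
          ≤ 2 * Real.pi * s * (1 / MM N (k + 1)) := by
            apply mul_le_mul_of_nonneg_left h1; positivity
        _ ≤ Real.pi * MM N k * (1 / MM N (k + 1)) := by
            apply mul_le_mul_of_nonneg_right h2; positivity
        _ = Real.pi / N (k + 1) := by rw [h3]; field_simp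
        _ ≤ Real.pi / 2 := by
            apply div_le_div_of_nonneg_left Real.pi_pos.le (by norm_num) h4
    have h5 := tail_re hN s hs0 T (fun j hj => by have := hT j hj; omega) (-(Real.pi / 4)) le_rfl
      (by linarith)
    have h6 : √2 / 2 ≤ ‖∏ j ∈ T, g N j s‖ := by
      refine h5.trans ((Complex.re_le_norm _).trans ?_)
      rw [norm_mul, Complex.norm_exp_ofReal_mul_I, one_mul]
    have h7 : (√2 / 2) ^ 2 ≤ ‖∏ j ∈ T, g N j s‖ ^ 2 := by
      apply pow_le_pow_left₀ (by positivity) h6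
    rw [div_pow, Real.sq_sqrt (by norm_num)] at h7
    linarith
  rcases le_total 0 t with h0 | h0
  · exact main t h0 (by rwa [abs_of_nonneg h0] at ht)
  · have h1 := main (-t) (by linarith) (by rwa [abs_of_nonpos h0] at ht)
    have h2 : ‖∏ j ∈ T, g N j t‖ = ‖∏ j ∈ T, g N j (-t)‖ := by
      rw [norm_prod, norm_prod]
      apply Finset.prod_congr rfl
      intro j _
      rw [g_neg, RCLike.norm_conj]
    rw [h2]; exact h1

variable (S : ℕ → Prop) [DecidablePred S]

omit hN in
lemma GS_zero (t : ℝ) : GS N S 0 t = 1 := by simp [GS]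

omit hN in
lemma GS_succ_of (k : ℕ) (h : S (k + 1)) (t : ℝ) :
    GS N S (k + 1) t = GS N S k t * g N (k + 1) t := by
  unfold GS
  rw [show Finset.Icc 1 (k + 1) = insert (k + 1) (Finset.Icc 1 k) by
    ext x; simp only [Finset.mem_Icc, Finset.mem_insert]; omega,
    Finset.filter_insert, if_pos h, Finset.prod_insert (by simp), mul_comm]

omit hN in
lemma GS_succ_not (k : ℕ) (h : ¬ S (k + 1)) (t : ℝ) :
    GS N S (k + 1) t = GS N S k t := by
  unfold GS
  rw [show Finset.Icc 1 (k + 1) = insert (k + 1) (Finset.Icc 1 k) by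
    ext x; simp only [Finset.mem_Icc, Finset.mem_insert]; omega,
    Finset.filter_insert, if_neg h]

lemma GS_norm_le (k : ℕ) (t : ℝ) : ‖GS N S k t‖ ≤ 1 := by
  unfold GS
  rw [norm_prod]
  apply Finset.prod_le_one (fun _ _ => norm_nonneg _)
  intro j hj
  exact g_norm_le hN j (Finset.mem_Icc.mp (Finset.mem_filter.mp hj).1).1 t

lemma GS_add_period (k : ℕ) (t : ℝ) (x : ℤ) (hx : (MM N k : ℤ) ∣ x) :
    GS N S k (t + x) = GS N S k t := by
  unfold GS
  apply Finset.prod_congr rfl
  intro j hj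
  have hjk := (Finset.mem_Icc.mp (Finset.mem_filter.mp hj).1).2
  exact g_add_period hN j t x (dvd_trans (by exact_mod_cast MM_dvd hjk) hx)

omit hN in
lemma GS_split (k n : ℕ) (hkn : k ≤ n) (t : ℝ) :
    GS N S n t = GS N S k t * ∏ j ∈ (Finset.Icc (k + 1) n).filter S, g N j t := by
  unfold GS
  rw [← Finset.prod_union]
  · congr 1
    ext x
    simp only [Finset.mem_filter, Finset.mem_Icc, Finset.mem_union]
    constructor
    · rintro ⟨⟨h1, h2⟩, h3⟩
      by_cases hx : x ≤ k
      · left; exact ⟨⟨h1, hx⟩, h3⟩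
      · right; exact ⟨⟨by omega, h2⟩, h3⟩
    · rintro (⟨⟨h1, h2⟩, h3⟩ | ⟨⟨h1, h2⟩, h3⟩)
      · exact ⟨⟨h1, by omega⟩, h3⟩
      · exact ⟨⟨by omega, h2⟩, h3⟩
  · rw [Finset.disjoint_left]
    intro x h1 h2
    simp only [Finset.mem_filter, Finset.mem_Icc] at h1 h2
    omega

lemma GS_anti (k n : ℕ) (hkn : k ≤ n) (t : ℝ) : ‖GS N S n t‖ ^ 2 ≤ ‖GS N S k t‖ ^ 2 := by
  rw [GS_split S k n hkn, norm_mul, mul_pow]
  have h1 : ‖∏ j ∈ (Finset.Icc (k + 1) n).filter S, g N j t‖ ≤ 1 := by
    rw [norm_prod]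
    apply Finset.prod_le_one (fun _ _ => norm_nonneg _)
    intro j hj
    exact g_norm_le hN j (by have := (Finset.mem_Icc.mp (Finset.mem_filter.mp hj).1).1; omega) t
  have h2 : ‖∏ j ∈ (Finset.Icc (k + 1) n).filter S, g N j t‖ ^ 2 ≤ 1 := by
    apply pow_le_one₀ (norm_nonneg _) h1
  calc _ ≤ ‖GS N S k t‖ ^ 2 * 1 := by gcongr
    _ = _ := by ring

lemma GS_tail (k n : ℕ) (hkn : k ≤ n) (hk : ¬ S (k + 1)) (t : ℝ) (ht : |t| ≤ MM N k / 2) :
    1 / 2 * ‖GS N S k t‖ ^ 2 ≤ ‖GS N S n t‖ ^ 2 := by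
  rw [GS_split S k n hkn, norm_mul, mul_pow, mul_comm]
  apply mul_le_mul_of_nonneg_left _ (by positivity)
  apply tail_norm_sq hN k t ht
  intro j hj
  have h1 := Finset.mem_filter.mp hj
  have h2 := (Finset.mem_Icc.mp h1.1).1
  by_contra h3
  have : j = k + 1 := by omega
  exact hk (this ▸ h1.2)

/-- a set of integers whose pairwise differences have their first digit at an index in `S`. -/
def Good (N : ℕ → ℕ) (S : ℕ → Prop) (F : Finset ℤ) : Prop :=
  ∀ x ∈ F, ∀ y ∈ F, x ≠ y → S (val N (x - y))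

lemma val_congr {k : ℕ} {u w : ℤ} (h : (MM N k : ℤ) ∣ u - w) (hw : ¬ (MM N k : ℤ) ∣ w) :
    val N u = val N w := by
  have hw0 : w ≠ 0 := by rintro rfl; exact hw (dvd_zero _)
  by_cases huw : u - w = 0
  · rw [sub_eq_zero.mp huw]
  · have h1 := (dvd_iff_lt_val hN huw k).1 h
    have h2 : ¬ k < val N w := fun h3 => hw ((dvd_iff_lt_val hN hw0 k).2 h3)
    have h3 := val_add_of_lt hN hw0 huw (by omega)
    rwa [add_sub_cancel] at h3

/-- **Completion lemma.** -/
lemma completion (k : ℕ) : ∀ F : Finset ℤ,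
    (∀ x ∈ F, ∀ y ∈ F, x ≠ y → S (val N (x - y)) ∧ val N (x - y) ≤ k) →
    ∀ I : Set ℤ, (∀ r : ℤ, ∃ i ∈ I, (MM N k : ℤ) ∣ i - r) →
    ∃ G : Finset ℤ, F ⊆ G ∧ (∀ b ∈ G, b ∉ F → b ∈ I) ∧
      (∀ x ∈ G, ∀ y ∈ G, x ≠ y → S (val N (x - y)) ∧ val N (x - y) ≤ k) ∧
      ∀ ξ : ℝ, ∑ b ∈ G, ‖GS N S k (ξ - b)‖ ^ 2 = 1 := by
  classical
  induction k with
  | zero =>
    intro F hF I hI
    rcases F.eq_empty_or_nonempty with hFe | ⟨a, ha⟩
    · obtain ⟨i, hi, -⟩ := hI 0
      refine ⟨{i}, by simp [hFe], ?_, ?_, ?_⟩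
      · intro b hb _
        rw [Finset.mem_singleton.mp hb]; exact hi
      · intro x hx y hy hxy
        rw [Finset.mem_singleton] at hx hy
        exact absurd (hx.trans hy.symm) hxy
      · intro ξ; simp [GS_zero]
    · have hFa : F = {a} := by
        rw [Finset.eq_singleton_iff_unique_mem]
        refine ⟨ha, fun x hx => ?_⟩
        by_contra hxa
        have h1 := (hF x hx a ha hxa).2
        have h2 := val_pos hN (sub_ne_zero.mpr hxa)
        omega
      refine ⟨F, subset_rfl, fun b hb hb' => absurd hb hb', hF, ?_⟩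
      intro ξ; simp [hFa, GS_zero]
  | succ k ih =>
    intro F hF I hI
    by_cases hS : S (k + 1)
    · -- the branching case
      have hMk : (0 : ℤ) < MM N k := by exact_mod_cast MM_pos hN k
      have hMk1 : (MM N (k + 1) : ℤ) = MM N k * N (k + 1) := by rw [MM_succ]; push_cast; ring
      have hNk : 0 < N (k + 1) := by have := hN (k + 1) (by omega); omega
      have hdvdk : (MM N k : ℤ) ∣ MM N (k + 1) := by rw [hMk1]; exact dvd_mul_right _ _
      let F₀ : Finset ℤ := F.image (fun x => x % (MM N k : ℤ))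
      have hF₀ : ∀ x ∈ F₀, ∀ y ∈ F₀, x ≠ y → S (val N (x - y)) ∧ val N (x - y) ≤ k := by
        intro x hx y hy hxy
        obtain ⟨x', hx', rfl⟩ := Finset.mem_image.mp hx
        obtain ⟨y', hy', rfl⟩ := Finset.mem_image.mp hy
        have hnd : ¬ (MM N k : ℤ) ∣ x' - y' := by
          intro h
          apply hxy
          exact Int.emod_eq_emod_iff_emod_sub_eq_zero.mpr (Int.emod_eq_zero_of_dvd h)
        have hne : x' ≠ y' := by rintro rfl; exact hxy rfl
        have hval : val N (x' % (MM N k : ℤ) - y' % (MM N k : ℤ)) = val N (x' - y') := by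
          apply val_congr hN (k := k) _ hnd
          have h1 : x' % (MM N k : ℤ) - y' % (MM N k : ℤ) - (x' - y')
              = (MM N k : ℤ) * (y' / (MM N k : ℤ) - x' / (MM N k : ℤ)) := by
            have e1 := Int.emod_def x' (MM N k : ℤ)
            have e2 := Int.emod_def y' (MM N k : ℤ)
            rw [e1, e2]; ring
          rw [h1]; exact dvd_mul_right _ _
        rw [hval]
        refine ⟨(hF x' hx' y' hy' hne).1, ?_⟩
        have := (dvd_iff_lt_val hN (sub_ne_zero.mpr hne) k)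
        by_contra h
        exact hnd (this.2 (by omega))
      obtain ⟨G₀, hFG₀, -, hG₀, hmass⟩ := ih F₀ hF₀ Set.univ (fun r => ⟨r, trivial, by simp⟩)
      have hG₀inj : ∀ x ∈ G₀, ∀ y ∈ G₀, (MM N k : ℤ) ∣ x - y → x = y := by
        intro x hx y hy h
        by_contra hne
        have h1 := (hG₀ x hx y hy hne).2
        have h2 := (dvd_iff_lt_val hN (sub_ne_zero.mpr hne) k).1 h
        omega
      have hex : ∀ p : ℤ × ℕ, ∃ r : ℤ, (MM N (k + 1) : ℤ) ∣ r - (p.1 + p.2 * MM N k) ∧
          (r ∈ F ∨ (r ∈ I ∧ ∀ f ∈ F, ¬ (MM N (k + 1) : ℤ) ∣ f - (p.1 + p.2 * MM N k))) := by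
        intro p
        by_cases h : ∃ f ∈ F, (MM N (k + 1) : ℤ) ∣ f - (p.1 + p.2 * MM N k)
        · obtain ⟨f, hf, hfd⟩ := h
          exact ⟨f, hfd, Or.inl hf⟩
        · push Not at h
          obtain ⟨i, hi, hid⟩ := hI (p.1 + p.2 * MM N k)
          exact ⟨i, hid, Or.inr ⟨hi, h⟩⟩
      choose r hr1 hr2 using hex
      have hrk : ∀ p : ℤ × ℕ, (MM N k : ℤ) ∣ r p - p.1 := by
        intro p
        have h1 := dvd_trans hdvdk (hr1 p)
        have h2 : r p - p.1 = (r p - (p.1 + p.2 * MM N k)) + p.2 * MM N k := by ring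
        rw [h2]
        exact dvd_add h1 (dvd_mul_left _ _)
      have hrinj : ∀ p ∈ G₀ ×ˢ Finset.range (N (k + 1)), ∀ q ∈ G₀ ×ˢ Finset.range (N (k + 1)),
          p ≠ q → S (val N (r p - r q)) ∧ val N (r p - r q) ≤ k + 1 := by
        intro p hp q hq hpq
        obtain ⟨hp1, hp2⟩ := Finset.mem_product.mp hp
        obtain ⟨hq1, hq2⟩ := Finset.mem_product.mp hq
        by_cases h1 : p.1 = q.1
        · have h2 : p.2 ≠ q.2 := fun h => hpq (Prod.ext h1 h)
          have hd1 : (MM N k : ℤ) ∣ r p - r q := by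
            have h3 : r p - r q = (r p - p.1) - (r q - q.1) := by rw [h1]; ring
            rw [h3]; exact dvd_sub (hrk p) (hrk q)
          have hd2 : ¬ (MM N (k + 1) : ℤ) ∣ r p - r q := by
            intro h
            have h3 : ((p.2 : ℤ) - q.2) * MM N k
                = (r p - r q) - ((r p - (p.1 + p.2 * MM N k)) - (r q - (q.1 + q.2 * MM N k))) := by
              rw [h1]; ring
            have h4 : (MM N (k + 1) : ℤ) ∣ ((p.2 : ℤ) - q.2) * MM N k := by
              rw [h3]; exact dvd_sub h (dvd_sub (hr1 p) (hr1 q))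
            rw [hMk1, mul_comm ((p.2 : ℤ) - q.2)] at h4
            have h5 : (N (k + 1) : ℤ) ∣ (p.2 : ℤ) - q.2 :=
              Int.dvd_of_mul_dvd_mul_left hMk.ne' h4
            have h6 := Finset.mem_range.mp hp2
            have h7 := Finset.mem_range.mp hq2
            have h8 : (p.2 : ℤ) - q.2 ≠ 0 := by omega
            have h9 := Int.le_of_dvd (abs_pos.mpr h8) ((dvd_abs _ _).mpr h5)
            have h10 : |(p.2 : ℤ) - q.2| < N (k + 1) := by
              rw [abs_lt]; constructor <;> omega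
            omega
          have hv : val N (r p - r q) = k + 1 := val_eq_of hN (by omega) (by simpa using hd1) hd2
          rw [hv]; exact ⟨hS, le_rfl⟩
        · have hnd : ¬ (MM N k : ℤ) ∣ p.1 - q.1 := fun h => h1 (hG₀inj _ hp1 _ hq1 h)
          have hv : val N (r p - r q) = val N (p.1 - q.1) := by
            apply val_congr hN (k := k) _ hnd
            have h3 : r p - r q - (p.1 - q.1) = (r p - p.1) - (r q - q.1) := by ring
            rw [h3]; exact dvd_sub (hrk p) (hrk q)
          rw [hv]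
          have := hG₀ _ hp1 _ hq1 h1
          exact ⟨this.1, by omega⟩
      have hrne : ∀ p ∈ G₀ ×ˢ Finset.range (N (k + 1)), ∀ q ∈ G₀ ×ˢ Finset.range (N (k + 1)),
          r p = r q → p = q := by
        intro p hp q hq hpq
        by_contra hne
        obtain ⟨hp1, hp2⟩ := Finset.mem_product.mp hp
        obtain ⟨hq1, hq2⟩ := Finset.mem_product.mp hq
        have h1 : p.1 = q.1 := by
          apply hG₀inj _ hp1 _ hq1
          have h3 : p.1 - q.1 = (r q - q.1) - (r p - p.1) := by rw [hpq]; ring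
          rw [h3]; exact dvd_sub (hrk q) (hrk p)
        have h2 : p.2 ≠ q.2 := fun h => hne (Prod.ext h1 h)
        have h3 : ((p.2 : ℤ) - q.2) * MM N k
            = ((r q - (q.1 + q.2 * MM N k)) - (r p - (p.1 + p.2 * MM N k))) := by
          rw [h1, hpq]; ring
        have h4 : (MM N (k + 1) : ℤ) ∣ ((p.2 : ℤ) - q.2) * MM N k := by
          rw [h3]; exact dvd_sub (hr1 q) (hr1 p)
        rw [hMk1, mul_comm ((p.2 : ℤ) - q.2)] at h4
        have h5 : (N (k + 1) : ℤ) ∣ (p.2 : ℤ) - q.2 :=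
          Int.dvd_of_mul_dvd_mul_left hMk.ne' h4
        have h6 := Finset.mem_range.mp hp2
        have h7 := Finset.mem_range.mp hq2
        have h8 : (p.2 : ℤ) - q.2 ≠ 0 := by omega
        have h9 := Int.le_of_dvd (abs_pos.mpr h8) ((dvd_abs _ _).mpr h5)
        have h10 : |(p.2 : ℤ) - q.2| < N (k + 1) := by
          rw [abs_lt]; constructor <;> omega
        omega
      refine ⟨(G₀ ×ˢ Finset.range (N (k + 1))).image r, ?_, ?_, ?_, ?_⟩
      · -- F ⊆ G
        intro f hf
        have hf0 : f % (MM N k : ℤ) ∈ G₀ := hFG₀ (Finset.mem_image_of_mem _ hf)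
        let q : ℤ := f / (MM N k : ℤ)
        let d : ℕ := (q % (N (k + 1) : ℤ)).toNat
        have hNz : (0 : ℤ) < N (k + 1) := by exact_mod_cast hNk
        have hd0 : 0 ≤ q % (N (k + 1) : ℤ) := Int.emod_nonneg _ hNz.ne'
        have hd : (d : ℤ) = q % (N (k + 1) : ℤ) := Int.toNat_of_nonneg hd0
        have hdlt : d < N (k + 1) := by
          have := Int.emod_lt_of_pos q hNz
          omega
        have hp : (f % (MM N k : ℤ), d) ∈ G₀ ×ˢ Finset.range (N (k + 1)) :=
          Finset.mem_product.mpr ⟨hf0, Finset.mem_range.mpr hdlt⟩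
        have hfd : (MM N (k + 1) : ℤ) ∣ f - (f % (MM N k : ℤ) + d * MM N k) := by
          have e1 := Int.emod_def f (MM N k : ℤ)
          have e2 := Int.emod_def q (N (k + 1) : ℤ)
          rw [hd, e1, e2, hMk1]
          refine ⟨q / (N (k + 1) : ℤ), ?_⟩
          ring
        rw [Finset.mem_image]
        refine ⟨_, hp, ?_⟩
        have hrF : r (f % (MM N k : ℤ), d) ∈ F := by
          rcases hr2 (f % (MM N k : ℤ), d) with h | ⟨-, h⟩
          · exact h
          · exact absurd hfd (h f hf)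
        by_contra hne
        have h1 := (hF _ hrF f hf hne).2
        have h2 : (MM N (k + 1) : ℤ) ∣ r (f % (MM N k : ℤ), d) - f := by
          have h3 : r (f % (MM N k : ℤ), d) - f
            = (r (f % (MM N k : ℤ), d) - (f % (MM N k : ℤ) + d * MM N k))
              - (f - (f % (MM N k : ℤ) + d * MM N k)) := by ring
          rw [h3]; exact dvd_sub (hr1 _) hfd
        have h3 := (dvd_iff_lt_val hN (sub_ne_zero.mpr hne) (k + 1)).1 h2
        omega
      · intro b hb hbF
        obtain ⟨p, hp, rfl⟩ := Finset.mem_image.mp hb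
        rcases hr2 p with h | ⟨h, -⟩
        · exact absurd h hbF
        · exact h
      · intro x hx y hy hxy
        obtain ⟨p, hp, rfl⟩ := Finset.mem_image.mp hx
        obtain ⟨q, hq, rfl⟩ := Finset.mem_image.mp hy
        exact hrinj p hp q hq (fun h => hxy (by rw [h]))
      · intro ξ
        rw [Finset.sum_image (fun p hp q hq h => hrne p hp q hq h), Finset.sum_product]
        rw [← hmass ξ]
        apply Finset.sum_congr rfl
        intro c hc
        have hterm : ∀ d ∈ Finset.range (N (k + 1)), ‖GS N S (k + 1) (ξ - r (c, d))‖ ^ 2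
            = ‖GS N S k (ξ - c)‖ ^ 2 *
              ‖g N (k + 1) (ξ - c - d * MM N (k + 1 - 1))‖ ^ 2 := by
          intro d _
          rw [GS_succ_of S k hS, norm_mul, mul_pow]
          have e1 : (ξ - r (c, d) : ℝ) = (ξ - c) + ((-(r (c, d) - c) : ℤ) : ℝ) := by
            push_cast; ring
          have e2 : (ξ - r (c, d) : ℝ) = (ξ - c - d * MM N (k + 1 - 1))
              + ((-(r (c, d) - (c + d * MM N k)) : ℤ) : ℝ) := by
            rw [Nat.add_sub_cancel]; push_cast; ring
          congr 2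
          · rw [e1, GS_add_period hN S k _ _ ((dvd_neg).mpr (hrk (c, d)))]
          · rw [e2, g_add_period hN (k + 1) _ _ ((dvd_neg).mpr (hr1 (c, d)))]
        rw [Finset.sum_congr rfl hterm, ← Finset.mul_sum, g_parseval hN (k + 1) (by omega), mul_one]
    · -- no branching
      have hF' : ∀ x ∈ F, ∀ y ∈ F, x ≠ y → S (val N (x - y)) ∧ val N (x - y) ≤ k := by
        intro x hx y hy hxy
        obtain ⟨h1, h2⟩ := hF x hx y hy hxy
        refine ⟨h1, ?_⟩
        by_contra h3
        have : val N (x - y) = k + 1 := by omega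
        exact hS (this ▸ h1)
      have hI' : ∀ r : ℤ, ∃ i ∈ I, (MM N k : ℤ) ∣ i - r := by
        intro r
        obtain ⟨i, hi, hid⟩ := hI r
        refine ⟨i, hi, dvd_trans ?_ hid⟩
        exact_mod_cast MM_dvd (Nat.le_succ k)
      obtain ⟨G, h1, h2, h3, h4⟩ := ih F hF' I hI'
      refine ⟨G, h1, h2, fun x hx y hy hxy => ?_, fun ξ => ?_⟩
      · have := h3 x hx y hy hxy
        exact ⟨this.1, by omega⟩
      · rw [← h4 ξ]
        apply Finset.sum_congr rfl
        intro b _
        rw [GS_succ_not S k hS]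

end

end Pool.Agent.Work.MP_47966f_an
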