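import Pool.Agent.Work.MP_47966f_an.Arith

set_option autoImplicit false

namespace Pool.Agent.Work.MP_47966f_an

open Complex

/-- `g N k t = (1/N_k) ∑_{d<N_k} exp(2π i t d / M_k)`. -/
noncomputable def g (N : ℕ → ℕ) (k : ℕ) (t : ℝ) : ℂ :=
  (N k : ℂ)⁻¹ * ∑ d ∈ Finset.range (N k), exp (2 * Real.pi * I * t * d / (MM N k : ℂ))

lemma exp_sum_eq (n : ℕ) (hn : n ≠ 0) (m : ℤ) :
    ∑ d ∈ Finset.range n, exp (2 * Real.pi * I * (m * d / (n : ℂ)))
      = if (n : ℤ) ∣ m then (n : ℂ) else 0 := by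
  have hn' : (n : ℂ) ≠ 0 := by exact_mod_cast hn
  have hpow : ∀ d : ℕ, exp (2 * Real.pi * I * (m * d / (n : ℂ)))
      = (exp (2 * Real.pi * I * (m / (n : ℂ)))) ^ d := by
    intro d
    rw [← Complex.exp_nat_mul]
    congr 1
    ring
  simp_rw [hpow]
  set z := exp (2 * Real.pi * I * (m / (n : ℂ))) with hz
  have hzn : z ^ n = 1 := by
    rw [hz, ← Complex.exp_nat_mul, Complex.exp_eq_one_iff]
    refine ⟨m, ?_⟩
    field_simp
  split_ifs with h
  · have hz1 : z = 1 := by
      obtain ⟨c, hc⟩ := h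
      rw [hz, Complex.exp_eq_one_iff]
      refine ⟨c, ?_⟩
      rw [hc]
      push_cast
      field_simp
    rw [hz1]; simp
  · have hz1 : z ≠ 1 := by
      intro h1
      apply h
      rw [hz, Complex.exp_eq_one_iff] at h1
      obtain ⟨c, hc⟩ := h1
      refine ⟨c, ?_⟩
      have h2 : (2 * Real.pi * I : ℂ) ≠ 0 := by simp [Real.pi_ne_zero]
      have h3 : (m / (n : ℂ)) = c := by
        have : (2 * Real.pi * I : ℂ) * (m / (n : ℂ)) = (2 * Real.pi * I : ℂ) * c := by
          rw [hc]; ring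
        exact mul_left_cancel₀ h2 this
      have h4 : (m : ℂ) = n * c := by
        field_simp at h3
        rw [h3]; try ring
      exact_mod_cast h4
    rw [geom_sum_eq hz1, hzn]
    simp

section
variable {N : ℕ → ℕ} (hN : ∀ k, 1 ≤ k → 2 ≤ N k)
include hN

lemma g_norm_le (k : ℕ) (hk : 1 ≤ k) (t : ℝ) : ‖g N k t‖ ≤ 1 := by
  have h0 : (0 : ℝ) < N k := by
    have := hN k hk
    exact_mod_cast (by omega : 0 < N k)
  unfold g
  rw [norm_mul, norm_inv, Complex.norm_natCast, inv_mul_le_iff₀ h0, mul_one]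
  calc ‖∑ d ∈ Finset.range (N k), exp (2 * Real.pi * I * t * d / (MM N k : ℂ))‖
      ≤ ∑ d ∈ Finset.range (N k), ‖exp (2 * Real.pi * I * t * d / (MM N k : ℂ))‖ :=
        norm_sum_le _ _
    _ = ∑ d ∈ Finset.range (N k), 1 := by
        apply Finset.sum_congr rfl
        intro d _
        have : (2 * Real.pi * I * t * d / (MM N k : ℂ))
            = ((2 * Real.pi * t * d / (MM N k : ℝ) : ℝ) : ℂ) * I := by
          push_cast; ring
        rw [this, Complex.norm_exp_ofReal_mul_I]
    _ = N k := by simp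

/-- Periodicity. -/
lemma g_add_period (k : ℕ) (t : ℝ) (x : ℤ) (hx : (MM N k : ℤ) ∣ x) :
    g N k (t + x) = g N k t := by
  obtain ⟨c, rfl⟩ := hx
  have hM : (MM N k : ℂ) ≠ 0 := by
    have := MM_pos hN k
    exact_mod_cast this.ne'
  unfold g
  congr 1
  apply Finset.sum_congr rfl
  intro d _
  rw [show (2 * Real.pi * I * ((t + ((MM N k * c : ℤ) : ℝ) : ℝ) : ℂ) * d / (MM N k : ℂ))
    = 2 * Real.pi * I * t * d / (MM N k : ℂ) + ((c * d : ℤ) : ℂ) * (2 * Real.pi * I) by
      push_cast; field_simp, Complex.exp_add, Complex.exp_int_mul_two_pi_mul_I, mul_one]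

lemma g_zero_iff (k : ℕ) (hk : 1 ≤ k) (t : ℝ) :
    g N k t = 0 ↔ ∃ n : ℤ, t = n ∧ (MM N (k - 1) : ℤ) ∣ n ∧ ¬ (MM N k : ℤ) ∣ n := by
  have hNk := hN k hk
  have hN0 : (N k : ℂ) ≠ 0 := by
    exact_mod_cast (by omega : N k ≠ 0)
  have hM : (MM N k : ℂ) ≠ 0 := by
    have := MM_pos hN k
    exact_mod_cast this.ne'
  have hM' : (MM N (k - 1) : ℂ) ≠ 0 := by
    have := MM_pos hN (k - 1)
    exact_mod_cast this.ne'
  have hMM : (MM N k : ℂ) = MM N (k - 1) * N k := by
    have := MM_succ N (k - 1)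
    rw [Nat.sub_add_cancel hk] at this
    exact_mod_cast this
  set z := exp (2 * Real.pi * I * t / (MM N k : ℂ)) with hz
  have hpi : (2 * Real.pi * I : ℂ) ≠ 0 := by simp [Real.pi_ne_zero]
  have hsum : g N k t = (N k : ℂ)⁻¹ * ∑ d ∈ Finset.range (N k), z ^ d := by
    unfold g
    congr 1
    apply Finset.sum_congr rfl
    intro d _
    rw [hz, ← Complex.exp_nat_mul]
    congr 1
    ring
  have hz1 : z = 1 ↔ ∃ n : ℤ, t = n ∧ (MM N k : ℤ) ∣ n := by
    rw [hz, Complex.exp_eq_one_iff]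
    constructor
    · rintro ⟨c, hc⟩
      refine ⟨MM N k * c, ?_, dvd_mul_right _ _⟩
      have : (t : ℂ) = MM N k * c := by
        have h1 : (2 * Real.pi * I : ℂ) * t = (2 * Real.pi * I : ℂ) * (MM N k * c) := by
          field_simp at hc
          rw [hc]; try ring
        exact mul_left_cancel₀ hpi h1
      push_cast
      exact_mod_cast this
    · rintro ⟨n, hn, c, hc⟩
      refine ⟨c, ?_⟩
      rw [hn, hc]
      push_cast
      field_simp
  have hzN : z ^ (N k) = 1 ↔ ∃ n : ℤ, t = n ∧ (MM N (k - 1) : ℤ) ∣ n := by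
    rw [hz, ← Complex.exp_nat_mul, Complex.exp_eq_one_iff, hMM]
    constructor
    · rintro ⟨c, hc⟩
      refine ⟨MM N (k - 1) * c, ?_, dvd_mul_right _ _⟩
      have : (t : ℂ) = MM N (k - 1) * c := by
        have h1 : (2 * Real.pi * I : ℂ) * t = (2 * Real.pi * I : ℂ) * (MM N (k - 1) * c) := by
          field_simp at hc
          rw [hc]; try ring
        exact mul_left_cancel₀ hpi h1
      push_cast
      exact_mod_cast this
    · rintro ⟨n, hn, c, hc⟩
      refine ⟨c, ?_⟩
      rw [hn, hc]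
      push_cast
      field_simp
  rw [hsum]
  constructor
  · intro h
    have h1 : ∑ d ∈ Finset.range (N k), z ^ d = 0 := by
      rcases mul_eq_zero.mp h with h2 | h2
      · exact absurd h2 (inv_ne_zero hN0)
      · exact h2
    have hne : z ≠ 1 := by
      intro h2
      rw [h2] at h1
      simp at h1
      omega
    rw [geom_sum_eq hne] at h1
    have h3 : z ^ (N k) = 1 := by
      rcases div_eq_zero_iff.mp h1 with h4 | h4
      · exact sub_eq_zero.mp h4
      · exact absurd (sub_eq_zero.mp h4) hne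
    obtain ⟨n, hn, hdvd⟩ := hzN.1 h3
    refine ⟨n, hn, hdvd, fun h5 => hne (hz1.2 ⟨n, hn, h5⟩)⟩
  · rintro ⟨n, hn, h1, h2⟩
    have h3 : z ^ (N k) = 1 := hzN.2 ⟨n, hn, h1⟩
    have hne : z ≠ 1 := by
      intro h4
      obtain ⟨n', hn', h5⟩ := hz1.1 h4
      have : n = n' := by
        rw [hn] at hn'
        exact_mod_cast hn'
      exact h2 (this ▸ h5)
    rw [geom_sum_eq hne, h3]
    simp

/-- Parseval identity for the digit `k`. -/
lemma g_parseval (k : ℕ) (hk : 1 ≤ k) (t : ℝ) :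
    ∑ d ∈ Finset.range (N k), ‖g N k (t - d * MM N (k - 1))‖ ^ 2 = 1 := by
  have hNk := hN k hk
  have hN0 : (N k : ℂ) ≠ 0 := by
    exact_mod_cast (by omega : N k ≠ 0)
  have hM' : (MM N (k - 1) : ℂ) ≠ 0 := by
    have := MM_pos hN (k - 1)
    exact_mod_cast this.ne'
  have hM : (MM N k : ℂ) ≠ 0 := by
    have := MM_pos hN k
    exact_mod_cast this.ne'
  have hMM : (MM N k : ℂ) = MM N (k - 1) * N k := by
    have := MM_succ N (k - 1)
    rw [Nat.sub_add_cancel hk] at this
    exact_mod_cast this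
  have key : (∑ d ∈ Finset.range (N k), ((‖g N k (t - d * MM N (k - 1))‖ ^ 2 : ℝ) : ℂ)) = 1 := by
    have h1 : ∀ d ∈ Finset.range (N k), ((‖g N k (t - d * MM N (k - 1))‖ ^ 2 : ℝ) : ℂ)
        = ∑ a ∈ Finset.range (N k), ∑ b ∈ Finset.range (N k),
          ((N k : ℂ)⁻¹ * (N k : ℂ)⁻¹ * exp (2 * Real.pi * I * t * (a - b) / (MM N k : ℂ))) *
            exp (2 * Real.pi * I * (((b : ℤ) - (a : ℤ) : ℤ) * d / (N k : ℂ))) := by
      intro d _
      have hsq : ((‖g N k (t - d * MM N (k - 1))‖ ^ 2 : ℝ) : ℂ)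
          = g N k (t - d * MM N (k - 1)) * (starRingEnd ℂ) (g N k (t - d * MM N (k - 1))) := by
        rw [Complex.mul_conj, Complex.normSq_eq_norm_sq]
      rw [hsq]
      unfold g
      rw [map_mul, map_sum, mul_mul_mul_comm, Finset.sum_mul_sum, Finset.mul_sum]
      apply Finset.sum_congr rfl
      intro a _
      rw [Finset.mul_sum]
      apply Finset.sum_congr rfl
      intro b _
      rw [map_inv₀, Complex.conj_natCast, ← Complex.exp_conj, ← Complex.exp_add,
        mul_assoc ((N k : ℂ)⁻¹ * (N k : ℂ)⁻¹), ← Complex.exp_add]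
      congr 2
      simp only [map_div₀, map_mul, Complex.conj_ofReal, Complex.conj_I, Complex.conj_natCast,
        map_ofNat, hMM]
      push_cast
      field_simp
      ring
    rw [Finset.sum_congr rfl h1, Finset.sum_comm]
    have h2 : ∀ a ∈ Finset.range (N k), ∑ d ∈ Finset.range (N k), ∑ b ∈ Finset.range (N k),
          ((N k : ℂ)⁻¹ * (N k : ℂ)⁻¹ * exp (2 * Real.pi * I * t * (a - b) / (MM N k : ℂ))) *
            exp (2 * Real.pi * I * (((b : ℤ) - (a : ℤ) : ℤ) * d / (N k : ℂ))) = (N k : ℂ)⁻¹ := by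
      intro a ha
      rw [Finset.sum_comm]
      simp_rw [← Finset.mul_sum]
      have h3 : ∀ b ∈ Finset.range (N k),
          ((N k : ℂ)⁻¹ * (N k : ℂ)⁻¹ * exp (2 * Real.pi * I * t * (a - b) / (MM N k : ℂ))) *
            ∑ d ∈ Finset.range (N k),
              exp (2 * Real.pi * I * (((b : ℤ) - (a : ℤ) : ℤ) * d / (N k : ℂ)))
          = if b = a then (N k : ℂ)⁻¹ else 0 := by
        intro b hb
        rw [exp_sum_eq (N k) (by omega)]
        have ha' := Finset.mem_range.mp ha
        have hb' := Finset.mem_range.mp hb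
        by_cases hab : b = a
        · subst hab
          simp
          field_simp
        · have hnd : ¬ ((N k : ℤ) ∣ (b : ℤ) - (a : ℤ)) := by
            intro h
            have h4 : (b : ℤ) - a ≠ 0 := by
              intro h5; apply hab; omega
            have h6 := Int.le_of_dvd (abs_pos.mpr h4) ((dvd_abs _ _).mpr h)
            have h7 : |(b : ℤ) - a| < N k := by
              rw [abs_lt]; constructor <;> omega
            omega
          rw [if_neg hnd, if_neg hab, mul_zero]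
      rw [Finset.sum_congr rfl h3, Finset.sum_ite_eq' (Finset.range (N k)) a, if_pos ha]
    rw [Finset.sum_congr rfl h2]
    simp
    field_simp
  exact_mod_cast key

end

end Pool.Agent.Work.MP_47966f_an
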